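import Mathlib

set_option autoImplicit false

open MeasureTheory Set Metric
open scoped ENNReal NNReal Topology

namespace Pool.Agent.Work.MP_c03b87_an

/-- prepend a coordinate -/
noncomputable def mk {m : ℕ} (t : ℝ) (u : EuclideanSpace ℝ (Fin m)) : EuclideanSpace ℝ (Fin (m + 1)) :=
  WithLp.toLp 2 (Fin.cons t (fun j => u j))

/-- forget the first coordinate -/
noncomputable def tl {m : ℕ} (z : EuclideanSpace ℝ (Fin (m + 1))) : EuclideanSpace ℝ (Fin m) :=
  WithLp.toLp 2 (fun j => z j.succ)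

@[simp] theorem mk_zero {m : ℕ} (t : ℝ) (u : EuclideanSpace ℝ (Fin m)) : mk t u 0 = t := by
  simp [mk]

@[simp] theorem mk_succ {m : ℕ} (t : ℝ) (u : EuclideanSpace ℝ (Fin m)) (j : Fin m) :
    mk t u j.succ = u j := by
  simp [mk]

@[simp] theorem tl_apply {m : ℕ} (z : EuclideanSpace ℝ (Fin (m + 1))) (j : Fin m) :
    tl z j = z j.succ := rfl

theorem mk_tl {m : ℕ} (z : EuclideanSpace ℝ (Fin (m + 1))) : mk (z 0) (tl z) = z := by
  ext j
  refine Fin.cases ?_ (fun j => ?_) j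
  · simp
  · simp

theorem tl_mk {m : ℕ} (t : ℝ) (u : EuclideanSpace ℝ (Fin m)) : tl (mk t u) = u := by
  ext j
  simp

theorem norm_mk_sq {m : ℕ} (t : ℝ) (u : EuclideanSpace ℝ (Fin m)) :
    ‖mk t u‖ ^ 2 = t ^ 2 + ‖u‖ ^ 2 := by
  rw [EuclideanSpace.norm_sq_eq, EuclideanSpace.norm_sq_eq, Fin.sum_univ_succ]
  simp

theorem norm_sq_eq_tl {m : ℕ} (z : EuclideanSpace ℝ (Fin (m + 1))) :
    ‖z‖ ^ 2 = (z 0) ^ 2 + ‖tl z‖ ^ 2 := by
  conv_lhs => rw [← mk_tl z]
  rw [norm_mk_sq]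

theorem contDiff_mk {m : ℕ} : ContDiff ℝ 1
    (fun q : ℝ × EuclideanSpace ℝ (Fin m) => mk q.1 q.2) := by
  rw [contDiff_euclidean]
  intro j
  refine Fin.cases ?_ (fun j => ?_) j
  · simp only [mk_zero]; fun_prop
  · simp only [mk_succ]; fun_prop

theorem contDiff_tl {m : ℕ} : ContDiff ℝ 1
    (fun z : EuclideanSpace ℝ (Fin (m + 1)) => tl z) := by
  rw [contDiff_euclidean]
  intro j
  simp only [tl_apply]; fun_prop

/-- measurable splitting of the first coordinate -/
noncomputable def splitEquiv (m : ℕ) : EuclideanSpace ℝ (Fin (m + 1)) ≃ᵐ ℝ × EuclideanSpace ℝ (Fin m) :=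
  ((MeasurableEquiv.toLp 2 (Fin (m + 1) → ℝ)).symm.trans
    (MeasurableEquiv.piFinSuccAbove (fun _ => ℝ) 0)).trans
    (MeasurableEquiv.prodCongr (MeasurableEquiv.refl ℝ) (MeasurableEquiv.toLp 2 (Fin m → ℝ)))

theorem splitEquiv_apply {m : ℕ} (z : EuclideanSpace ℝ (Fin (m + 1))) :
    splitEquiv m z = (z 0, tl z) := by
  rfl

theorem measurePreserving_split (m : ℕ) :
    MeasurePreserving (splitEquiv m) volume volume := by
  refine MeasurePreserving.trans (e := (MeasurableEquiv.toLp 2 (Fin (m + 1) → ℝ)).symm.trans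
    (MeasurableEquiv.piFinSuccAbove (fun _ => ℝ) 0)) (μb := volume) ?_ ?_
  · refine MeasurePreserving.trans (μb := volume) ?_ ?_
    · exact EuclideanSpace.volume_preserving_symm_measurableEquiv_toLp _
    · exact volume_preserving_piFinSuccAbove (fun _ => ℝ) 0
  · exact (MeasurePreserving.id volume).prod
      ((EuclideanSpace.volume_preserving_symm_measurableEquiv_toLp _).symm)


/-- central projection of the hyperplane `z 0 = 1` to the unit sphere -/
noncomputable def om {m : ℕ} (u : EuclideanSpace ℝ (Fin m)) : EuclideanSpace ℝ (Fin (m + 1)) :=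
  (‖mk 1 u‖)⁻¹ • mk 1 u

theorem norm_mk_one_pos {m : ℕ} (u : EuclideanSpace ℝ (Fin m)) : 0 < ‖mk 1 u‖ := by
  have h := norm_mk_sq 1 u
  have h0 := norm_nonneg (mk 1 u)
  rcases h0.eq_or_lt with h1 | h1
  · rw [← h1] at h
    have := sq_nonneg ‖u‖
    nlinarith
  · exact h1

theorem mk_one_ne_zero {m : ℕ} (u : EuclideanSpace ℝ (Fin m)) : mk 1 u ≠ 0 :=
  norm_pos_iff.1 (norm_mk_one_pos u)

theorem contDiff_om {m : ℕ} : ContDiff ℝ 1 (om (m := m)) := by
  have h1 : ContDiff ℝ 1 (fun u : EuclideanSpace ℝ (Fin m) => mk 1 u) :=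
    contDiff_mk.comp (contDiff_const.prodMk contDiff_id)
  have h2 : ContDiff ℝ 1 (fun u : EuclideanSpace ℝ (Fin m) => ‖mk 1 u‖) :=
    h1.norm ℝ (fun u => mk_one_ne_zero u)
  exact (h2.inv (fun u => (norm_mk_one_pos u).ne')).smul h1

theorem norm_om {m : ℕ} (u : EuclideanSpace ℝ (Fin m)) : ‖om u‖ = 1 := by
  rw [om, norm_smul, norm_inv, norm_norm, inv_mul_cancel₀ (norm_mk_one_pos u).ne']

theorem om_zero {m : ℕ} (u : EuclideanSpace ℝ (Fin m)) : om u 0 = (‖mk 1 u‖)⁻¹ := by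
  simp [om]

theorem mk_smul {m : ℕ} (c t : ℝ) (u : EuclideanSpace ℝ (Fin m)) : mk (c * t) (c • u) = c • mk t u := by
  ext j
  refine Fin.cases ?_ (fun j => ?_) j
  · simp
  · simp

theorem tl_smul {m : ℕ} (c : ℝ) (z : EuclideanSpace ℝ (Fin (m + 1))) : tl (c • z) = c • tl z := by
  ext j
  simp

/-- inverse chart -/
noncomputable def lam {m : ℕ} (z : EuclideanSpace ℝ (Fin (m + 1))) : EuclideanSpace ℝ (Fin (m + 1)) :=
  mk ‖z‖ ((z 0)⁻¹ • tl z)

theorem polar_lam {m : ℕ} (z : EuclideanSpace ℝ (Fin (m + 1))) (hz : 0 < z 0) :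
    ‖z‖ • om ((z 0)⁻¹ • tl z) = z := by
  have h1 : mk 1 ((z 0)⁻¹ • tl z) = (z 0)⁻¹ • z := by
    have h := mk_smul (z 0)⁻¹ (z 0) (tl z)
    rwa [mk_tl, inv_mul_cancel₀ hz.ne'] at h
  rw [om, h1, norm_smul, norm_inv, Real.norm_eq_abs, abs_of_pos hz, smul_smul, smul_smul]
  have hz' : z ≠ 0 := by
    rintro rfl
    simp at hz
  have h2 : ‖z‖ ≠ 0 := norm_ne_zero_iff.2 hz'
  have h3 : ‖z‖ * ((z 0)⁻¹ * ‖z‖)⁻¹ * (z 0)⁻¹ = 1 := by
    field_simp
  rw [h3, one_smul]

theorem lam_polar {m : ℕ} (t : ℝ) (ht : 0 < t) (u : EuclideanSpace ℝ (Fin m)) :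
    lam (t • om u) = mk t u := by
  have h0 : (t • om u) 0 = t * (‖mk 1 u‖)⁻¹ := by simp [om_zero]
  rw [lam, norm_smul, norm_om, mul_one, Real.norm_eq_abs, abs_of_pos ht, h0, tl_smul]
  congr 1
  rw [om, tl_smul, tl_mk, smul_smul, smul_smul]
  have : (t * ‖mk 1 u‖⁻¹)⁻¹ * t * ‖mk 1 u‖⁻¹ = 1 := by
    rw [mul_assoc]
    apply inv_mul_cancel₀
    have := norm_mk_one_pos u
    positivity
  rw [this, one_smul]

/-- the truncated cone -/
def coneZ (m : ℕ) (R : ℝ) : Set (EuclideanSpace ℝ (Fin (m + 1))) :=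
  {z | 1 ≤ ‖z‖ ∧ ‖z‖ ≤ 2 ∧ ‖tl z‖ ≤ R * z 0}

theorem coneZ_pos {m : ℕ} {R : ℝ} (hR : 0 < R) {z : EuclideanSpace ℝ (Fin (m + 1))}
    (hz : z ∈ coneZ m R) : 0 < z 0 := by
  have h1 : 0 ≤ R * z 0 := (norm_nonneg _).trans hz.2.2
  have h2 : 0 ≤ z 0 := by
    by_contra h
    push Not at h
    nlinarith
  rcases h2.eq_or_lt with h | h
  · exfalso
    have h3 : ‖tl z‖ = 0 := le_antisymm (by simpa [← h] using hz.2.2) (norm_nonneg _)
    have h4 := norm_sq_eq_tl z
    rw [h3, ← h] at h4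
    have := hz.1
    nlinarith
  · exact h

theorem isCompact_coneZ (m : ℕ) (R : ℝ) : IsCompact (coneZ m R) := by
  apply Metric.isCompact_of_isClosed_isBounded
  · have h1 : Continuous (fun z : EuclideanSpace ℝ (Fin (m + 1)) => tl z) := contDiff_tl.continuous
    have h2 : Continuous (fun z : EuclideanSpace ℝ (Fin (m + 1)) => z 0) := by fun_prop
    apply (isClosed_le continuous_const continuous_norm).inter
    apply (isClosed_le continuous_norm continuous_const).inter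
    exact isClosed_le h1.norm (continuous_const.mul h2)
  · refine (Metric.isBounded_closedBall (x := (0 : EuclideanSpace ℝ (Fin (m + 1)))) (r := 2)).subset ?_
    intro z hz
    simpa using hz.2.1

theorem contDiffAt_lam {m : ℕ} (z : EuclideanSpace ℝ (Fin (m + 1))) (hz : 0 < z 0) :
    ContDiffAt ℝ 1 (lam (m := m)) z := by
  have hz' : z ≠ 0 := by
    rintro rfl
    simp at hz
  have h1 : ContDiffAt ℝ 1 (fun z : EuclideanSpace ℝ (Fin (m + 1)) => ‖z‖) z := contDiffAt_norm ℝ hz'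
  have h2 : ContDiffAt ℝ 1 (fun z : EuclideanSpace ℝ (Fin (m + 1)) => (z 0)⁻¹ • tl z) z := by
    have h3 : ContDiffAt ℝ 1 (fun z : EuclideanSpace ℝ (Fin (m + 1)) => (z 0)⁻¹) z := by
      have h4 : ContDiffAt ℝ 1 (fun z : EuclideanSpace ℝ (Fin (m + 1)) => z 0) z := by fun_prop
      exact h4.inv hz.ne'
    exact ContDiffAt.smul h3 contDiff_tl.contDiffAt
  exact contDiff_mk.contDiffAt.comp z (h1.prodMk h2)

theorem exists_det_bound (m : ℕ) (R : ℝ) (hR : 0 < R) :
    ∃ C : ℝ, ∀ z ∈ coneZ m R, |(fderiv ℝ (lam (m := m)) z).det| ≤ C := by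
  have h1 : ContinuousOn (fun z => |(fderiv ℝ (lam (m := m)) z).det|) (coneZ m R) := by
    intro z hz
    apply ContinuousAt.continuousWithinAt
    have h2 : ContinuousAt (fderiv ℝ (lam (m := m))) z :=
      (contDiffAt_lam z (coneZ_pos hR hz)).continuousAt_fderiv (by norm_num)
    exact (ContinuousLinearMap.continuous_det.continuousAt.comp h2).abs
  obtain ⟨C, hC⟩ := (isCompact_coneZ m R).exists_bound_of_continuousOn h1
  refine ⟨C, fun z hz => ?_⟩
  have := hC z hz
  simpa using this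

theorem chart_lintegral (m : ℕ) (R : ℝ) (hR : 0 < R) :
    ∃ C : ℝ≥0∞, C ≠ ∞ ∧ ∀ F : EuclideanSpace ℝ (Fin (m + 1)) → ℝ≥0∞, Measurable F →
      ∫⁻ t in Icc (1 : ℝ) 2, ∫⁻ u in closedBall (0 : EuclideanSpace ℝ (Fin m)) R, F (t • om u) ≤
        C * ∫⁻ z in closedBall (0 : EuclideanSpace ℝ (Fin (m + 1))) 2, F z := by
  obtain ⟨C, hC⟩ := exists_det_bound m R hR
  refine ⟨ENNReal.ofReal C, ENNReal.ofReal_ne_top, fun F hF => ?_⟩
  have hZm : MeasurableSet (coneZ m R) := (isCompact_coneZ m R).measurableSet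
  have hinj : InjOn (lam (m := m)) (coneZ m R) := by
    intro z hz w hw h
    have e1 := polar_lam z (coneZ_pos hR hz)
    have e2 := polar_lam w (coneZ_pos hR hw)
    have h1 : ‖z‖ = ‖w‖ := by
      have := congrArg (fun y => y 0) h
      simpa [lam] using this
    have h2 : (z 0)⁻¹ • tl z = (w 0)⁻¹ • tl w := by
      have := congrArg tl h
      simpa [lam, tl_mk] using this
    rw [← e1, ← e2, h1, h2]
  have himg : lam (m := m) '' (coneZ m R) =
      (splitEquiv m) ⁻¹' (Icc (1 : ℝ) 2 ×ˢ closedBall (0 : EuclideanSpace ℝ (Fin m)) R) := by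
    ext y
    simp only [mem_image, mem_preimage, splitEquiv_apply, mem_prod, mem_Icc, mem_closedBall,
      dist_zero_right]
    constructor
    · rintro ⟨z, hz, rfl⟩
      have hz0 := coneZ_pos hR hz
      simp only [lam, mk_zero, tl_mk]
      refine ⟨⟨hz.1, hz.2.1⟩, ?_⟩
      rw [norm_smul, norm_inv, Real.norm_eq_abs, abs_of_pos hz0, inv_mul_le_iff₀ hz0, mul_comm]
      exact hz.2.2
    · rintro ⟨⟨h1, h2⟩, h3⟩
      have hy0 : 0 < y 0 := by linarith
      refine ⟨y 0 • om (tl y), ⟨?_, ?_, ?_⟩, ?_⟩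
      · rw [norm_smul, norm_om, mul_one, Real.norm_eq_abs, abs_of_pos hy0]; exact h1
      · rw [norm_smul, norm_om, mul_one, Real.norm_eq_abs, abs_of_pos hy0]; exact h2
      · have hp := norm_mk_one_pos (tl y)
        rw [om, tl_smul, tl_smul, tl_mk, smul_smul, norm_smul, Real.norm_eq_abs, abs_of_pos
          (by positivity)]
        simp only [PiLp.smul_apply, mk_zero, smul_eq_mul, mul_one]
        rw [mul_comm R]
        gcongr
      · rw [lam_polar _ hy0, mk_tl]
  set G : ℝ × EuclideanSpace ℝ (Fin m) → EuclideanSpace ℝ (Fin (m + 1)) :=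
    fun q => q.1 • om q.2 with hG
  have hGc : Continuous G := continuous_fst.smul (contDiff_om.continuous.comp continuous_snd)
  calc ∫⁻ t in Icc (1 : ℝ) 2, ∫⁻ u in closedBall (0 : EuclideanSpace ℝ (Fin m)) R, F (t • om u)
      = ∫⁻ q in Icc (1 : ℝ) 2 ×ˢ closedBall (0 : EuclideanSpace ℝ (Fin m)) R, F (G q)
          ∂(volume.prod volume) := by
        rw [← Measure.prod_restrict, lintegral_prod]
        exact (hF.comp hGc.measurable).aemeasurable
    _ = ∫⁻ y in lam (m := m) '' (coneZ m R), F (G (splitEquiv m y)) := by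
        rw [himg]
        exact ((measurePreserving_split m).setLIntegral_comp_preimage_emb
          (splitEquiv m).measurableEmbedding (fun q => F (G q)) _).symm
    _ = ∫⁻ z in coneZ m R, ENNReal.ofReal |(fderiv ℝ (lam (m := m)) z).det| *
          F (G (splitEquiv m (lam z))) := by
        rw [lintegral_image_eq_lintegral_abs_det_fderiv_mul volume hZm (f' := fderiv ℝ (lam (m := m)))
          (fun z hz => ?_) hinj]
        exact ((contDiffAt_lam z (coneZ_pos hR hz)).differentiableAt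
          (by norm_num)).hasFDerivAt.hasFDerivWithinAt
    _ ≤ ∫⁻ z in coneZ m R, ENNReal.ofReal C * F z := by
        refine setLIntegral_mono' hZm fun z hz => ?_
        have e : G (splitEquiv m (lam z)) = z := by
          rw [splitEquiv_apply, hG]
          simp only [lam, mk_zero, tl_mk]
          exact polar_lam z (coneZ_pos hR hz)
        rw [e]
        gcongr
        exact hC z hz
    _ = ENNReal.ofReal C * ∫⁻ z in coneZ m R, F z := lintegral_const_mul _ hF
    _ ≤ ENNReal.ofReal C * ∫⁻ z in closedBall (0 : EuclideanSpace ℝ (Fin (m + 1))) 2, F z := by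
        gcongr
        intro z hz
        simpa using hz.2.1

end Pool.Agent.Work.MP_c03b87_an
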