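import Mathlib

set_option autoImplicit false

open MeasureTheory Set Metric
open scoped ENNReal NNReal Topology

namespace Pool.Agent.Work.MP_c03b87_an

section Morrey

variable {m : ℕ} {W : Type*} [NormedAddCommGroup W] [NormedSpace ℝ W] [CompleteSpace W]

/-- fundamental theorem of calculus bound along a segment -/
theorem enorm_sub_le_lintegral_segment (H : EuclideanSpace ℝ (Fin m) → W) (hH : ContDiff ℝ 1 H)
    (a y : EuclideanSpace ℝ (Fin m)) :
    ‖H y - H a‖ₑ ≤ ∫⁻ s in Ioc (0 : ℝ) 1, ‖fderiv ℝ H (a + s • (y - a))‖ₑ * ‖y - a‖ₑ := by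
  have hd : ∀ s : ℝ, HasDerivAt (fun s : ℝ => H (a + s • (y - a)))
      (fderiv ℝ H (a + s • (y - a)) (y - a)) s := by
    intro s
    have h1 : HasFDerivAt H (fderiv ℝ H (a + s • (y - a))) (a + s • (y - a)) :=
      (hH.differentiable (by norm_num) _).hasFDerivAt
    have h2 : HasDerivAt (fun s : ℝ => a + s • (y - a)) (y - a) s := by
      have := ((hasDerivAt_id s).smul_const (y - a)).const_add a
      simpa using this
    exact h1.comp_hasDerivAt s h2
  have hc : Continuous (fun s : ℝ => fderiv ℝ H (a + s • (y - a)) (y - a)) := by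
    have : Continuous (fderiv ℝ H) := hH.continuous_fderiv (by norm_num)
    fun_prop
  have hI := intervalIntegral.integral_eq_sub_of_hasDerivAt (a := (0 : ℝ)) (b := 1)
    (fun s _ => hd s) (hc.intervalIntegrable 0 1)
  simp only [one_smul, zero_smul, add_zero, add_sub_cancel] at hI
  rw [← hI, intervalIntegral.integral_of_le zero_le_one]
  refine (enorm_integral_le_lintegral_enorm _).trans ?_
  refine lintegral_mono fun s => ?_
  exact ContinuousLinearMap.le_opENorm _ _

/-- change of variables under a contraction towards a point of the ball -/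
theorem lintegral_ball_homothety_le (R : ℝ) (g : EuclideanSpace ℝ (Fin m) → ℝ≥0∞)
    (hg : Measurable g) (a : EuclideanSpace ℝ (Fin m))
    (ha : a ∈ closedBall (0 : EuclideanSpace ℝ (Fin m)) R) (s : ℝ) (hs : s ∈ Ioc (0 : ℝ) 1) :
    ∫⁻ y in closedBall (0 : EuclideanSpace ℝ (Fin m)) R, g (a + s • (y - a)) ≤
      ENNReal.ofReal (s ^ m)⁻¹ * ∫⁻ z in closedBall (0 : EuclideanSpace ℝ (Fin m)) R, g z := by
  set K := closedBall (0 : EuclideanSpace ℝ (Fin m)) R
  have hK : MeasurableSet K := measurableSet_closedBall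
  have hconv : Convex ℝ K := convex_closedBall _ _
  have hmap : Measure.map (fun y : EuclideanSpace ℝ (Fin m) => a + s • (y - a)) volume
      = ENNReal.ofReal (s ^ m)⁻¹ • volume := by
    have e1 : (fun y : EuclideanSpace ℝ (Fin m) => a + s • (y - a)) =
        (fun y => (a - s • a) + y) ∘ (fun y => s • y) := by
      funext y
      simp only [Function.comp, smul_sub]
      abel
    rw [e1, ← Measure.map_map (by fun_prop) (by fun_prop),
      Measure.map_addHaar_smul volume hs.1.ne']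
    rw [Measure.map_smul, map_add_left_eq_self]
    congr 2
    rw [finrank_euclideanSpace_fin, abs_of_nonneg]
    have := hs.1
    positivity
  calc ∫⁻ y in K, g (a + s • (y - a))
      ≤ ∫⁻ y, K.indicator g (a + s • (y - a)) := by
        rw [← lintegral_indicator hK]
        refine lintegral_mono fun y => ?_
        by_cases hy : y ∈ K
        · have : a + s • (y - a) ∈ K := by
            have h := hconv ha hy (sub_nonneg.2 hs.2) hs.1.le (by ring)
            convert! h using 1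
            rw [smul_sub, sub_smul, one_smul]; abel
          rw [indicator_of_mem hy, indicator_of_mem this]
        · rw [indicator_of_notMem hy]; exact zero_le
    _ = ∫⁻ z, K.indicator g z ∂(Measure.map (fun y => a + s • (y - a)) volume) := by
        rw [lintegral_map (hg.indicator hK) (by fun_prop)]
    _ = ENNReal.ofReal (s ^ m)⁻¹ * ∫⁻ z in K, g z := by
        rw [hmap, lintegral_smul_measure, lintegral_indicator hK, smul_eq_mul]

theorem lintegral_rpow_ne_top (m : ℕ) (p : ℝ) (hp : (m : ℝ) < p) :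
    ∫⁻ s in Ioc (0 : ℝ) 1, (ENNReal.ofReal (s ^ m)⁻¹) ^ (1 / p) ≠ ∞ := by
  have hp0 : 0 < p := lt_of_le_of_lt (Nat.cast_nonneg m) hp
  have h1 : ∫⁻ s in Ioc (0 : ℝ) 1, (ENNReal.ofReal (s ^ m)⁻¹) ^ (1 / p) =
      ∫⁻ s in Ioc (0 : ℝ) 1, ENNReal.ofReal (s ^ (-(m / p) : ℝ)) := by
    refine setLIntegral_congr_fun measurableSet_Ioc fun s hs => ?_
    have hs0 : 0 < s := hs.1
    rw [ENNReal.ofReal_rpow_of_nonneg (by positivity) (by positivity)]
    congr 1
    rw [← Real.rpow_natCast, ← Real.rpow_neg hs0.le, ← Real.rpow_mul hs0.le]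
    congr 1
    ring
  rw [h1]
  have h2 : IntervalIntegrable (fun s : ℝ => s ^ (-(m / p) : ℝ)) volume 0 1 := by
    apply intervalIntegral.intervalIntegrable_rpow'
    rw [neg_lt_neg_iff, div_lt_one hp0]
    exact hp
  rw [intervalIntegrable_iff, uIoc_of_le zero_le_one] at h2
  exact h2.lintegral_lt_top.ne

/-- Morrey's inequality on a ball, for maps of class `C^1`. -/
theorem morrey_half (R : ℝ) (hR : 0 < R) (p : ℝ) (hp : (m : ℝ) < p) (hp1 : 1 < p)
    (H : EuclideanSpace ℝ (Fin m) → W) (hH : ContDiff ℝ 1 H)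
    (a : EuclideanSpace ℝ (Fin m)) (ha : a ∈ closedBall (0 : EuclideanSpace ℝ (Fin m)) R) :
    ∫⁻ y in closedBall (0 : EuclideanSpace ℝ (Fin m)) R, ‖H y - H a‖ₑ ≤
      (ENNReal.ofReal (2 * R) * (volume (closedBall (0 : EuclideanSpace ℝ (Fin m)) R)) ^ (1 - 1 / p)
        * ∫⁻ s in Ioc (0 : ℝ) 1, (ENNReal.ofReal (s ^ m)⁻¹) ^ (1 / p)) *
      (∫⁻ u in closedBall (0 : EuclideanSpace ℝ (Fin m)) R, ‖fderiv ℝ H u‖ₑ ^ p) ^ (1 / p) := by
  set K := closedBall (0 : EuclideanSpace ℝ (Fin m)) R with hKdef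
  have hK : MeasurableSet K := measurableSet_closedBall
  have hp0 : 0 < p := by linarith
  have hcg : Continuous (fderiv ℝ H) := hH.continuous_fderiv (by norm_num)
  have hcg' : Continuous (fun u => ‖fderiv ℝ H u‖ₑ) := by fun_prop
  have step1 : ∫⁻ y in K, ‖H y - H a‖ₑ ≤
      ∫⁻ y in K, ∫⁻ s in Ioc (0 : ℝ) 1,
        ENNReal.ofReal (2 * R) * ‖fderiv ℝ H (a + s • (y - a))‖ₑ := by
    refine setLIntegral_mono' hK fun y hy => ?_
    refine (enorm_sub_le_lintegral_segment H hH a y).trans ?_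
    refine lintegral_mono fun s => ?_
    rw [mul_comm]
    gcongr
    rw [← ofReal_norm]
    apply ENNReal.ofReal_le_ofReal
    have h1 : ‖y‖ ≤ R := by simpa [K] using hy
    have h2 : ‖a‖ ≤ R := by simpa [K] using ha
    calc ‖y - a‖ ≤ ‖y‖ + ‖a‖ := norm_sub_le _ _
      _ ≤ 2 * R := by linarith
  have step2 : ∫⁻ y in K, ∫⁻ s in Ioc (0 : ℝ) 1,
        ENNReal.ofReal (2 * R) * ‖fderiv ℝ H (a + s • (y - a))‖ₑ =
      ∫⁻ s in Ioc (0 : ℝ) 1, ENNReal.ofReal (2 * R) *
        ∫⁻ y in K, ‖fderiv ℝ H (a + s • (y - a))‖ₑ := by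
    rw [lintegral_lintegral_swap]
    · refine lintegral_congr fun s => ?_
      rw [lintegral_const_mul]
      exact (hcg'.comp (by fun_prop)).measurable
    · apply Continuous.aemeasurable
      simp only [Function.uncurry_def]
      apply ENNReal.continuous_const_mul ENNReal.ofReal_ne_top |>.comp
      exact hcg'.comp (by fun_prop)
  have step3 : ∀ s ∈ Ioc (0 : ℝ) 1, ∫⁻ y in K, ‖fderiv ℝ H (a + s • (y - a))‖ₑ ≤
      (volume K) ^ (1 - 1 / p) * (ENNReal.ofReal (s ^ m)⁻¹) ^ (1 / p) *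
      (∫⁻ u in K, ‖fderiv ℝ H u‖ₑ ^ p) ^ (1 / p) := by
    intro s hs
    have hpq : p.HolderConjugate (Real.conjExponent p) := Real.HolderConjugate.conjExponent hp1
    have hm : Measurable (fun y : EuclideanSpace ℝ (Fin m) =>
        ‖fderiv ℝ H (a + s • (y - a))‖ₑ) := (hcg'.comp (by fun_prop)).measurable
    have h1 := ENNReal.lintegral_mul_le_Lp_mul_Lq (volume.restrict K) hpq
      hm.aemeasurable (g := fun _ => 1) aemeasurable_const
    simp only [Pi.mul_apply, mul_one, ENNReal.one_rpow, lintegral_const, one_mul,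
      Measure.restrict_apply_univ] at h1
    have h2 : 1 / Real.conjExponent p = 1 - 1 / p := by
      have := hpq.inv_add_inv_eq_one
      rw [one_div, one_div]; linarith
    rw [h2] at h1
    refine h1.trans ?_
    have h3 := lintegral_ball_homothety_le R (fun u => ‖fderiv ℝ H u‖ₑ ^ p)
      (hcg'.measurable.pow_const p) a ha s hs
    calc _ ≤ (ENNReal.ofReal (s ^ m)⁻¹ * ∫⁻ u in K, ‖fderiv ℝ H u‖ₑ ^ p) ^ (1 / p) *
          (volume K) ^ (1 - 1 / p) := by gcongr
      _ = _ := by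
        rw [ENNReal.mul_rpow_of_nonneg _ _ (by positivity)]
        ring
  calc ∫⁻ y in K, ‖H y - H a‖ₑ ≤ _ := step1.trans step2.le
    _ ≤ ∫⁻ s in Ioc (0 : ℝ) 1, ENNReal.ofReal (2 * R) *
        ((volume K) ^ (1 - 1 / p) * (ENNReal.ofReal (s ^ m)⁻¹) ^ (1 / p) *
      (∫⁻ u in K, ‖fderiv ℝ H u‖ₑ ^ p) ^ (1 / p)) := by
        refine setLIntegral_mono' measurableSet_Ioc fun s hs => ?_
        gcongr
        exact step3 s hs
    _ = ∫⁻ s in Ioc (0 : ℝ) 1, (ENNReal.ofReal (2 * R) *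
        (volume K) ^ (1 - 1 / p) * (∫⁻ u in K, ‖fderiv ℝ H u‖ₑ ^ p) ^ (1 / p)) *
          (ENNReal.ofReal (s ^ m)⁻¹) ^ (1 / p) := by
        refine lintegral_congr fun s => ?_
        ring
    _ = _ := by
        rw [lintegral_const_mul]
        · ring
        · fun_prop

theorem morrey (R : ℝ) (hR : 0 < R) (p : ℝ) (hp : (m : ℝ) < p) (hp1 : 1 < p) :
    ∃ C : ℝ≥0∞, C ≠ ∞ ∧ ∀ (H : EuclideanSpace ℝ (Fin m) → W), ContDiff ℝ 1 H →
      ∀ a ∈ closedBall (0 : EuclideanSpace ℝ (Fin m)) R,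
      ∀ b ∈ closedBall (0 : EuclideanSpace ℝ (Fin m)) R,
        ‖H a - H b‖ₑ ^ p ≤
          C * ∫⁻ u in closedBall (0 : EuclideanSpace ℝ (Fin m)) R, ‖fderiv ℝ H u‖ₑ ^ p := by
  set K := closedBall (0 : EuclideanSpace ℝ (Fin m)) R with hKdef
  have hK : MeasurableSet K := measurableSet_closedBall
  have hp0 : 0 < p := by linarith
  have hvtop : volume K ≠ ∞ := measure_closedBall_lt_top.ne
  have hv0 : volume K ≠ 0 := (measure_closedBall_pos _ _ hR).ne'
  set A := (ENNReal.ofReal (2 * R) * (volume K) ^ (1 - 1 / p)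
        * ∫⁻ s in Ioc (0 : ℝ) 1, (ENNReal.ofReal (s ^ m)⁻¹) ^ (1 / p)) with hA
  have hAtop : A ≠ ∞ := by
    refine ENNReal.mul_ne_top (ENNReal.mul_ne_top ENNReal.ofReal_ne_top ?_) (lintegral_rpow_ne_top m p hp)
    exact ENNReal.rpow_ne_top_of_nonneg (by
      rw [sub_nonneg, div_le_one hp0]; exact hp1.le) hvtop
  refine ⟨((volume K)⁻¹ * (2 * A)) ^ p, ?_, fun H hH a ha b hb => ?_⟩
  · apply ENNReal.rpow_ne_top_of_nonneg hp0.le
    exact ENNReal.mul_ne_top (by simp [hv0]) (ENNReal.mul_ne_top (by simp) hAtop)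
  · have h1 := morrey_half R hR p hp hp1 H hH a ha
    have h2 := morrey_half R hR p hp hp1 H hH b hb
    rw [← hKdef, ← hA] at h1 h2
    have hcH : Continuous H := hH.continuous
    have h3 : volume K * ‖H a - H b‖ₑ ≤
        2 * A * (∫⁻ u in K, ‖fderiv ℝ H u‖ₑ ^ p) ^ (1 / p) := by
      calc volume K * ‖H a - H b‖ₑ = ∫⁻ _ in K, ‖H a - H b‖ₑ := by
            rw [lintegral_const, Measure.restrict_apply_univ, mul_comm]
        _ ≤ ∫⁻ y in K, (‖H y - H a‖ₑ + ‖H y - H b‖ₑ) := by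
            refine lintegral_mono fun y => ?_
            have : H a - H b = (H y - H b) - (H y - H a) := by abel
            rw [this]
            refine (enorm_sub_le).trans ?_
            rw [add_comm]
        _ = (∫⁻ y in K, ‖H y - H a‖ₑ) + ∫⁻ y in K, ‖H y - H b‖ₑ := by
            rw [lintegral_add_left]
            exact ((hcH.sub continuous_const).enorm).measurable
        _ ≤ _ := by
            rw [two_mul, add_mul]
            exact add_le_add h1 h2
    have h4 : ‖H a - H b‖ₑ ≤ (volume K)⁻¹ * (2 * A) *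
        (∫⁻ u in K, ‖fderiv ℝ H u‖ₑ ^ p) ^ (1 / p) := by
      rw [mul_assoc, ← ENNReal.mul_le_iff_le_inv hv0 hvtop]
      exact h3
    calc ‖H a - H b‖ₑ ^ p ≤ ((volume K)⁻¹ * (2 * A) *
        (∫⁻ u in K, ‖fderiv ℝ H u‖ₑ ^ p) ^ (1 / p)) ^ p := by gcongr
      _ = _ := by
        rw [ENNReal.mul_rpow_of_nonneg _ _ hp0.le, ← ENNReal.rpow_mul,
          one_div_mul_cancel hp0.ne', ENNReal.rpow_one]

end Morrey

end Pool.Agent.Work.MP_c03b87_an
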