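import Mathlib
import Pool.Agent.Work.MP_c03b87_an.Morrey
import Pool.Agent.Work.MP_c03b87_an.Chart

set_option autoImplicit false

open MeasureTheory Set Metric
open scoped ENNReal NNReal Topology

namespace Pool.Agent.Work.MP_c03b87_an

variable {W : Type*} [NormedAddCommGroup W] [NormedSpace ℝ W] [CompleteSpace W]

/-- a point of the standard cap in terms of the chart -/
theorem cap_point {m : ℕ} (z : EuclideanSpace ℝ (Fin (m + 1))) (t : ℝ) (ht : 0 < t) (hz : ‖z‖ = t)
    (hc : ∀ j, |z j| ≤ z 0) :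
    ∃ u ∈ closedBall (0 : EuclideanSpace ℝ (Fin m)) (m + 1), z = t • om u := by
  have h0 : 0 ≤ z 0 := (abs_nonneg _).trans (hc 0)
  have hpos : 0 < z 0 := by
    rcases h0.eq_or_lt with h | h
    · exfalso
      have : z = 0 := by
        ext j
        have := hc j
        rw [← h] at this
        simpa using this
      rw [this, norm_zero] at hz
      exact ht.ne hz
    · exact h
  refine ⟨(z 0)⁻¹ • tl z, ?_, ?_⟩
  · rw [mem_closedBall, dist_zero_right, norm_smul, norm_inv, Real.norm_eq_abs, abs_of_pos hpos,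
      inv_mul_le_iff₀ hpos]
    have h1 : ‖tl z‖ ^ 2 ≤ m * (z 0) ^ 2 := by
      rw [EuclideanSpace.norm_sq_eq]
      calc ∑ i : Fin m, ‖(tl z) i‖ ^ 2 ≤ ∑ _i : Fin m, (z 0) ^ 2 := by
            refine Finset.sum_le_sum fun i _ => ?_
            rw [tl_apply, Real.norm_eq_abs]
            gcongr
            exact hc _
        _ = m * (z 0) ^ 2 := by simp
    have h2 : 0 ≤ z 0 * ((m : ℝ) + 1) := by positivity
    apply le_of_sq_le_sq _ h2
    nlinarith [sq_nonneg (z 0), sq_nonneg ((m : ℝ) * z 0), (Nat.cast_nonneg m : (0 : ℝ) ≤ m)]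
  · rw [← hz]
    exact (polar_lam z hpos).symm

theorem cap_morrey (m : ℕ) (p : ℝ) (hp : (m : ℝ) < p) (hp1 : 1 < p) :
    ∃ C : ℝ≥0∞, C ≠ ∞ ∧ ∀ (h : EuclideanSpace ℝ (Fin (m + 1)) → W), ContDiff ℝ 1 h →
      ∀ t ∈ Icc (1 : ℝ) 2, ∀ z w : EuclideanSpace ℝ (Fin (m + 1)), ‖z‖ = t → ‖w‖ = t →
        (∀ j, |z j| ≤ z 0) → (∀ j, |w j| ≤ w 0) →
        ‖h z - h w‖ₑ ^ p ≤
          C * ∫⁻ u in closedBall (0 : EuclideanSpace ℝ (Fin m)) (m + 1),
            ‖fderiv ℝ h (t • om u)‖ₑ ^ p := by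
  have hR : (0 : ℝ) < m + 1 := by positivity
  have hp0 : 0 < p := by linarith
  obtain ⟨C, hCtop, hC⟩ := morrey (W := W) (m := m) (m + 1) hR p hp hp1
  have hcf : Continuous (fderiv ℝ (om (m := m))) := contDiff_om.continuous_fderiv (by norm_num)
  obtain ⟨L, hL⟩ := (isCompact_closedBall (0 : EuclideanSpace ℝ (Fin m)) ((m : ℝ) + 1)).exists_bound_of_continuousOn
    hcf.continuousOn
  refine ⟨C * (ENNReal.ofReal (2 * L)) ^ p,
    ENNReal.mul_ne_top hCtop (ENNReal.rpow_ne_top_of_nonneg hp0.le ENNReal.ofReal_ne_top), ?_⟩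
  intro h hh t ht z w hz hw hcz hcw
  have ht0 : 0 < t := by linarith [ht.1]
  obtain ⟨u, hu, hzu⟩ := cap_point z t ht0 hz hcz
  obtain ⟨v, hv, hwv⟩ := cap_point w t ht0 hw hcw
  set H : EuclideanSpace ℝ (Fin m) → W := fun u => h (t • om u) with hH
  have hHd : ContDiff ℝ 1 H := hh.comp (contDiff_om.const_smul t)
  have h1 := hC H hHd u hu v hv
  have e1 : H u - H v = h z - h w := by rw [hH, hzu, hwv]
  rw [e1] at h1
  refine h1.trans ?_
  rw [mul_assoc]
  gcongr
  have hmeas : Measurable (fun u : EuclideanSpace ℝ (Fin m) => ‖fderiv ℝ h (t • om u)‖ₑ ^ p) := by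
    have hc : Continuous (fun u : EuclideanSpace ℝ (Fin m) => ‖fderiv ℝ h (t • om u)‖ₑ) := by
      have := hh.continuous_fderiv (by norm_num)
      exact (this.comp (contDiff_om.continuous.const_smul t)).enorm
    exact hc.measurable.pow_const p
  rw [← lintegral_const_mul _ hmeas]
  refine setLIntegral_mono' measurableSet_closedBall fun x hx => ?_
  rw [← ENNReal.mul_rpow_of_nonneg _ _ hp0.le]
  gcongr
  have hd : HasFDerivAt H ((fderiv ℝ h (t • om x)).comp (t • fderiv ℝ om x)) x := by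
    have a1 : HasFDerivAt (fun u => t • om u) (t • fderiv ℝ (om (m := m)) x) x :=
      ((contDiff_om.differentiable (by norm_num) x).hasFDerivAt).const_smul t
    exact ((hh.differentiable (by norm_num) _).hasFDerivAt).comp x a1
  rw [hd.fderiv, mul_comm]
  refine (ContinuousLinearMap.opENorm_comp_le _ _).trans ?_
  gcongr
  rw [← ofReal_norm]
  apply ENNReal.ofReal_le_ofReal
  rw [norm_smul, Real.norm_eq_abs, abs_of_pos ht0]
  have := hL x hx
  exact mul_le_mul ht.2 this (norm_nonneg _) (by norm_num)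

/-- the sign attached to a boolean -/
noncomputable def sg (b : Bool) : ℝ := if b then 1 else -1

/-- signed coordinate swap -/
noncomputable def swapIso (m : ℕ) (q : Fin (m + 1) × Bool) :
    EuclideanSpace ℝ (Fin (m + 1)) ≃ₗᵢ[ℝ] EuclideanSpace ℝ (Fin (m + 1)) :=
  (LinearIsometryEquiv.piLpCongrLeft 2 ℝ ℝ (Equiv.swap 0 q.1)).trans
    (if q.2 then LinearIsometryEquiv.refl ℝ _ else LinearIsometryEquiv.neg ℝ)

theorem swapIso_apply (m : ℕ) (q : Fin (m + 1) × Bool) (z : EuclideanSpace ℝ (Fin (m + 1)))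
    (j : Fin (m + 1)) : swapIso m q z j = sg q.2 * z (Equiv.swap 0 q.1 j) := by
  rcases q with ⟨i, b⟩
  cases b <;> simp [swapIso, sg, LinearIsometryEquiv.piLpCongrLeft_apply, Equiv.piCongrLeft']

theorem sphere_lemma (m : ℕ) (hm : 1 ≤ m) (p : ℝ) (hp : (m : ℝ) < p) :
    ∃ C : ℝ≥0∞, C ≠ ∞ ∧ ∀ (h : EuclideanSpace ℝ (Fin (m + 1)) → W), ContDiff ℝ 1 h →
      ∀ δ : ℝ≥0∞, (∀ t ∈ Icc (1 : ℝ) 2, ∃ a b : EuclideanSpace ℝ (Fin (m + 1)), ‖a‖ = t ∧ ‖b‖ = t ∧
          δ ≤ ‖h a - h b‖ₑ) →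
        δ ^ p ≤ C * ∫⁻ z in closedBall (0 : EuclideanSpace ℝ (Fin (m + 1))) 2,
            ‖fderiv ℝ h z‖ₑ ^ p := by
  have hp1 : 1 < p := lt_of_le_of_lt (by exact_mod_cast hm) hp
  have hp0 : 0 < p := by linarith
  obtain ⟨C₁, hC₁top, hC₁⟩ := cap_morrey (W := W) m p hp hp1
  obtain ⟨C₂, hC₂top, hC₂⟩ := chart_lintegral m (m + 1) (by positivity)
  refine ⟨(6 : ℝ≥0∞) ^ p * C₁ * ((Fintype.card (Fin (m + 1) × Bool) : ℕ) * C₂), ?_, ?_⟩
  · refine ENNReal.mul_ne_top (ENNReal.mul_ne_top ?_ hC₁top) (ENNReal.mul_ne_top (ENNReal.natCast_ne_top _) hC₂top)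
    exact ENNReal.rpow_ne_top_of_nonneg hp0.le (by simp)
  intro h hh δ hδ
  -- the rotated functions
  set hq : Fin (m + 1) × Bool → EuclideanSpace ℝ (Fin (m + 1)) → W :=
    fun q z => h ((swapIso m q).symm z) with hhq
  have hqd : ∀ q, ContDiff ℝ 1 (hq q) := fun q =>
    hh.comp (swapIso m q).symm.contDiff
  set S : ℝ → ℝ≥0∞ := fun t => ∑ q : Fin (m + 1) × Bool,
    ∫⁻ u in closedBall (0 : EuclideanSpace ℝ (Fin m)) (m + 1),
            ‖fderiv ℝ (hq q) (t • om u)‖ₑ ^ p with hS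
  -- one face
  have face : ∀ t ∈ Icc (1 : ℝ) 2, ∀ q : Fin (m + 1) × Bool,
      ∀ z w : EuclideanSpace ℝ (Fin (m + 1)), ‖z‖ = t → ‖w‖ = t →
        (∀ j, |z j| ≤ sg q.2 * z q.1) → (∀ j, |w j| ≤ sg q.2 * w q.1) →
        ‖h z - h w‖ₑ ≤ (C₁ * S t) ^ (1 / p) := by
    intro t ht q z w hz hw hcz hcw
    have key : ∀ x : EuclideanSpace ℝ (Fin (m + 1)), (∀ j, |x j| ≤ sg q.2 * x q.1) →
        ∀ j, |swapIso m q x j| ≤ swapIso m q x 0 := by
      intro x hx j
      rw [swapIso_apply, swapIso_apply, Equiv.swap_apply_left, abs_mul]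
      have : |sg q.2| = 1 := by unfold sg; split_ifs <;> simp
      rw [this, one_mul]
      exact hx _
    have h1 := hC₁ (hq q) (hqd q) t ht (swapIso m q z) (swapIso m q w)
      (by rw [LinearIsometryEquiv.norm_map, hz]) (by rw [LinearIsometryEquiv.norm_map, hw])
      (key z hcz) (key w hcw)
    simp only [hhq, LinearIsometryEquiv.symm_apply_apply] at h1
    rw [one_div, ENNReal.le_rpow_inv_iff hp0]
    refine h1.trans ?_
    gcongr
    exact Finset.single_le_sum (f := fun q : Fin (m + 1) × Bool =>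
      ∫⁻ u in closedBall (0 : EuclideanSpace ℝ (Fin m)) (m + 1),
            ‖fderiv ℝ (hq q) (t • om u)‖ₑ ^ p) (fun _ _ => zero_le) (Finset.mem_univ q)
  -- vertices
  have vert : ∀ t ∈ Icc (1 : ℝ) 2, ∀ a : EuclideanSpace ℝ (Fin (m + 1)), ‖a‖ = t →
      ∃ c : EuclideanSpace ℝ (Fin (m + 1)), c = WithLp.toLp 2 (fun _ => t / Real.sqrt (m + 1)) ∧
      ‖h a - h c‖ₑ ≤ 3 * (C₁ * S t) ^ (1 / p) := by
    intro t ht a ha
    have ht0 : 0 < t := by linarith [ht.1]
    have hsq : 0 < Real.sqrt ((m : ℝ) + 1) := Real.sqrt_pos.2 (by positivity)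
    set v : (Fin (m + 1) → Bool) → EuclideanSpace ℝ (Fin (m + 1)) :=
      fun σ => WithLp.toLp 2 (fun j => sg (σ j) * (t / Real.sqrt (m + 1))) with hv
    have hvnorm : ∀ σ, ‖v σ‖ = t := by
      intro σ
      have h2 : ‖v σ‖ ^ 2 = t ^ 2 := by
        rw [EuclideanSpace.norm_sq_eq]
        have : ∀ j, ‖(v σ) j‖ ^ 2 = t ^ 2 / (m + 1) := by
          intro j
          simp only [hv]
          rw [Real.norm_eq_abs, sq_abs, mul_pow, div_pow, Real.sq_sqrt (by positivity)]
          have : sg (σ j) ^ 2 = 1 := by unfold sg; split_ifs <;> simp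
          rw [this, one_mul]
        simp only [this, Finset.sum_const, Finset.card_univ, Fintype.card_fin, nsmul_eq_mul]
        push_cast
        field_simp
      exact (sq_eq_sq₀ (norm_nonneg _) ht0.le).1 h2
    have hvface : ∀ σ i, ∀ j, |(v σ) j| ≤ sg (σ i) * (v σ) i := by
      intro σ i j
      simp only [hv]
      have e1 : |sg (σ j)| = 1 := by unfold sg; split_ifs <;> simp
      have e2 : sg (σ i) * sg (σ i) = 1 := by unfold sg; split_ifs <;> simp
      rw [abs_mul, e1, one_mul, ← mul_assoc, e2, one_mul, abs_of_nonneg (by positivity)]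
    have hmax : ∃ i, ∀ j, |a j| ≤ |a i| := by
      obtain ⟨i, hi⟩ := Finite.exists_max (fun j => |a j|)
      exact ⟨i, hi⟩
    obtain ⟨i, hi⟩ := hmax
    have hs : ∃ b : Bool, ∀ j, |a j| ≤ sg b * a i := by
      rcases le_total 0 (a i) with h | h
      · exact ⟨true, fun j => by simpa [sg, abs_of_nonneg h] using hi j⟩
      · exact ⟨false, fun j => by simpa [sg, abs_of_nonpos h] using hi j⟩
    obtain ⟨b, hb⟩ := hs
    have hplus : v (fun _ => true) = WithLp.toLp 2 (fun _ => t / Real.sqrt (m + 1)) := by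
      simp [hv, sg]
    set β := (C₁ * S t) ^ (1 / p) with hβ
    refine ⟨_, rfl, ?_⟩
    rw [← hplus]
    have s1 : ‖h a - h (v (fun _ => b))‖ₑ ≤ β :=
      face t ht (i, b) a (v fun _ => b) ha (hvnorm _) hb (hvface (fun _ => b) i)
    cases b with
    | true =>
      refine s1.trans ?_
      calc β = 1 * β := (one_mul _).symm
        _ ≤ 3 * β := by gcongr; norm_num
    | false =>
      -- intermediate vertex
      set τ : Fin (m + 1) → Bool := fun j => if j = 0 then true else false with hτ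
      have i1 : (⟨1, by omega⟩ : Fin (m + 1)) ≠ 0 := by
        intro h
        have := congrArg Fin.val h
        simp at this
      have s2 : ‖h (v (fun _ => false)) - h (v τ)‖ₑ ≤ β := by
        have := hvface τ ⟨1, by omega⟩
        have e : τ ⟨1, by omega⟩ = false := by simp only [hτ, if_neg i1]
        rw [e] at this
        exact face t ht (⟨1, by omega⟩, false) _ _ (hvnorm _) (hvnorm _)
          (hvface (fun _ => false) ⟨1, by omega⟩) this
      have s3 : ‖h (v τ) - h (v (fun _ => true))‖ₑ ≤ β := by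
        have := hvface τ 0
        have e : τ 0 = true := by simp [hτ]
        rw [e] at this
        exact face t ht (0, true) _ _ (hvnorm _) (hvnorm _) this
          (hvface (fun _ => true) 0)
      calc ‖h a - h (v fun _ => true)‖ₑ
          = ‖(h a - h (v fun _ => false)) + (h (v fun _ => false) - h (v τ)) +
              (h (v τ) - h (v fun _ => true))‖ₑ := by congr 1; abel
        _ ≤ ‖(h a - h (v fun _ => false)) + (h (v fun _ => false) - h (v τ))‖ₑ +
              ‖h (v τ) - h (v fun _ => true)‖ₑ := enorm_add_le _ _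
        _ ≤ ‖h a - h (v fun _ => false)‖ₑ + ‖h (v fun _ => false) - h (v τ)‖ₑ +
              ‖h (v τ) - h (v fun _ => true)‖ₑ := by gcongr; exact enorm_add_le _ _
        _ ≤ β + β + β := by gcongr
        _ = 3 * β := by ring
  have main : ∀ t ∈ Icc (1 : ℝ) 2, δ ^ p ≤ 6 ^ p * (C₁ * S t) := by
    intro t ht
    obtain ⟨a, b, ha, hb, hab⟩ := hδ t ht
    obtain ⟨c, hc, hac⟩ := vert t ht a ha
    obtain ⟨c', hc', hbc⟩ := vert t ht b hb
    have hcc : c = c' := by rw [hc, hc']
    subst hcc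
    have h1 : δ ≤ 6 * (C₁ * S t) ^ (1 / p) := by
      calc δ ≤ ‖h a - h b‖ₑ := hab
        _ = ‖(h a - h c) - (h b - h c)‖ₑ := by congr 1; abel
        _ ≤ ‖h a - h c‖ₑ + ‖h b - h c‖ₑ := enorm_sub_le
        _ ≤ 3 * (C₁ * S t) ^ (1 / p) + 3 * (C₁ * S t) ^ (1 / p) := by gcongr
        _ = 6 * (C₁ * S t) ^ (1 / p) := by ring
    calc δ ^ p ≤ (6 * (C₁ * S t) ^ (1 / p)) ^ p := by gcongr
      _ = 6 ^ p * (C₁ * S t) := by
        rw [ENNReal.mul_rpow_of_nonneg _ _ hp0.le, ← ENNReal.rpow_mul, one_div_mul_cancel hp0.ne',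
          ENNReal.rpow_one]
  -- measurability of each term
  have hF : ∀ q, Measurable (fun z => ‖fderiv ℝ (hq q) z‖ₑ ^ p) := fun q =>
    (((hqd q).continuous_fderiv (by norm_num)).enorm.measurable).pow_const p
  have hmeasS : ∀ q, Measurable (fun t : ℝ =>
      ∫⁻ u in closedBall (0 : EuclideanSpace ℝ (Fin m)) (m + 1),
            ‖fderiv ℝ (hq q) (t • om u)‖ₑ ^ p) := by
    intro q
    apply Measurable.lintegral_prod_right (f := fun (t : ℝ) (x : EuclideanSpace ℝ (Fin m)) =>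
      ‖fderiv ℝ (hq q) (t • om x)‖ₑ ^ p)
    exact (hF q).comp (continuous_fst.smul (contDiff_om.continuous.comp continuous_snd)).measurable
  calc δ ^ p = ∫⁻ _ in Icc (1 : ℝ) 2, δ ^ p := by
        rw [lintegral_const, Measure.restrict_apply_univ, Real.volume_Icc]
        norm_num
    _ ≤ ∫⁻ t in Icc (1 : ℝ) 2, 6 ^ p * (C₁ * S t) := setLIntegral_mono' measurableSet_Icc main
    _ = 6 ^ p * C₁ * ∫⁻ t in Icc (1 : ℝ) 2, S t := by
        simp_rw [← mul_assoc]
        rw [lintegral_const_mul]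
        exact Finset.measurable_sum _ fun q _ => hmeasS q
    _ = 6 ^ p * C₁ * ∑ q : Fin (m + 1) × Bool, ∫⁻ t in Icc (1 : ℝ) 2,
          ∫⁻ u in closedBall (0 : EuclideanSpace ℝ (Fin m)) (m + 1),
            ‖fderiv ℝ (hq q) (t • om u)‖ₑ ^ p := by
        rw [hS, lintegral_finsetSum _ fun q _ => hmeasS q]
    _ ≤ 6 ^ p * C₁ * ∑ _q : Fin (m + 1) × Bool,
          C₂ * ∫⁻ z in closedBall (0 : EuclideanSpace ℝ (Fin (m + 1))) 2,
            ‖fderiv ℝ h z‖ₑ ^ p := by
        gcongr with q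
        refine (hC₂ _ (hF q)).trans (mul_le_mul_right ?_ _)
        have hmp := (swapIso m q).symm.measurePreserving
        have hpre : (swapIso m q).symm ⁻¹' (closedBall (0 : EuclideanSpace ℝ (Fin (m + 1))) 2) =
            closedBall 0 2 := by
          ext z
          simp
        have e := hmp.setLIntegral_comp_preimage_emb
          ((swapIso m q).symm.toHomeomorph.measurableEmbedding)
          (fun z => ‖fderiv ℝ h z‖ₑ ^ p) (closedBall 0 2)
        rw [hpre] at e
        rw [← e]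
        refine lintegral_mono fun z => ?_
        have hd : HasFDerivAt (hq q) ((fderiv ℝ h ((swapIso m q).symm z)).comp
            ((swapIso m q).symm.toContinuousLinearEquiv :
              EuclideanSpace ℝ (Fin (m + 1)) →L[ℝ] EuclideanSpace ℝ (Fin (m + 1)))) z :=
          ((hh.differentiable (by norm_num) _).hasFDerivAt).comp z
            ((swapIso m q).symm.toContinuousLinearEquiv.hasFDerivAt)
        rw [hd.fderiv]
        gcongr
        refine (ContinuousLinearMap.opENorm_comp_le _ _).trans ?_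
        calc ‖fderiv ℝ h ((swapIso m q).symm z)‖ₑ * _ ≤ ‖fderiv ℝ h ((swapIso m q).symm z)‖ₑ * 1 := by
              gcongr
              rw [← ofReal_norm, ← ENNReal.ofReal_one]
              apply ENNReal.ofReal_le_ofReal
              exact (swapIso m q).symm.toLinearIsometry.norm_toContinuousLinearMap_le
          _ = _ := mul_one _
    _ = _ := by
        rw [Finset.sum_const, Finset.card_univ, nsmul_eq_mul]
        ring

end Pool.Agent.Work.MP_c03b87_an
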