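import Mathlib
import Pool.Agent.Work.MP_c03b87_an.Sphere

set_option autoImplicit false

open MeasureTheory Set Metric
open scoped ENNReal NNReal Topology

namespace Pool.Agent.Work.MP_c03b87_an

variable {W : Type*} [NormedAddCommGroup W] [NormedSpace ℝ W] [CompleteSpace W]

theorem sphere_lemma_scaled (m : ℕ) (hm : 1 ≤ m) (p : ℝ) (hp : (m : ℝ) < p) :
    ∃ C : ℝ≥0∞, C ≠ ∞ ∧ ∀ (F : EuclideanSpace ℝ (Fin (m + 1)) → W), ContDiff ℝ 1 F →
      ∀ (x : EuclideanSpace ℝ (Fin (m + 1))) (r s : ℝ), 0 < r → 0 ≤ s →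
        (∀ t ∈ Icc r (2 * r), ∃ a b : EuclideanSpace ℝ (Fin (m + 1)), dist a x = t ∧ dist b x = t ∧
          s * r ≤ ‖F a - F b‖) →
        ENNReal.ofReal s ^ p * ENNReal.ofReal r ^ (m + 1) ≤
          C * ∫⁻ z in closedBall x (2 * r), ‖fderiv ℝ F z‖ₑ ^ p := by
  obtain ⟨C, hCtop, hC⟩ := sphere_lemma (W := W) m hm p hp
  have hp0 : 0 < p := lt_of_le_of_lt (Nat.cast_nonneg m) hp
  refine ⟨C, hCtop, fun F hF x r s hr hs hab => ?_⟩
  set h : EuclideanSpace ℝ (Fin (m + 1)) → W := fun z => r⁻¹ • F (x + r • z) with hh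
  have hin : ContDiff ℝ 1 (fun z : EuclideanSpace ℝ (Fin (m + 1)) => x + r • z) :=
    contDiff_const.add (contDiff_id.const_smul r)
  have hhd : ContDiff ℝ 1 h := (hF.comp hin).const_smul _
  have hder : ∀ z, fderiv ℝ h z = fderiv ℝ F (x + r • z) := by
    intro z
    have a1 : HasFDerivAt (fun z : EuclideanSpace ℝ (Fin (m + 1)) => x + r • z)
        (r • ContinuousLinearMap.id ℝ _) z := by
      have := (((hasFDerivAt_id (𝕜 := ℝ) z).const_smul r).const_add x)
      simpa using this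
    have a2 : HasFDerivAt (fun z => F (x + r • z)) _ z :=
      ((hF.differentiable (by norm_num) (x + r • z)).hasFDerivAt).comp z a1
    have a3 := a2.const_smul r⁻¹
    have a4 := a3.fderiv
    have a5 : (r⁻¹ • fun z => F (x + r • z)) = h := rfl
    rw [a5] at a4
    rw [a4]
    ext v
    simp [smul_smul, inv_mul_cancel₀ hr.ne']
  have h1 := hC h hhd (ENNReal.ofReal s) (by
    intro t ht
    obtain ⟨a, b, ha, hb, hfab⟩ := hab (r * t) ⟨by nlinarith [ht.1], by nlinarith [ht.2]⟩
    have ht0 : 0 < t := by linarith [ht.1]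
    refine ⟨r⁻¹ • (a - x), r⁻¹ • (b - x), ?_, ?_, ?_⟩
    · rw [norm_smul, ← dist_eq_norm, ha, norm_inv, Real.norm_eq_abs, abs_of_pos hr,
        ← mul_assoc, inv_mul_cancel₀ hr.ne', one_mul]
    · rw [norm_smul, ← dist_eq_norm, hb, norm_inv, Real.norm_eq_abs, abs_of_pos hr,
        ← mul_assoc, inv_mul_cancel₀ hr.ne', one_mul]
    · rw [← ofReal_norm]
      apply ENNReal.ofReal_le_ofReal
      simp only [hh, smul_smul, mul_inv_cancel₀ hr.ne', one_smul, add_sub_cancel]
      rw [← smul_sub, norm_smul, norm_inv, Real.norm_eq_abs, abs_of_pos hr,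
        le_inv_mul_iff₀ hr]
      rw [mul_comm]; exact hfab)
  have hmeas : Measurable (fun z => ‖fderiv ℝ F z‖ₑ ^ p) :=
    ((hF.continuous_fderiv (by norm_num)).enorm.measurable).pow_const p
  have hmap : Measure.map (fun z : EuclideanSpace ℝ (Fin (m + 1)) => x + r • z) volume
      = ENNReal.ofReal (r ^ (m + 1))⁻¹ • volume := by
    have e1 : (fun z : EuclideanSpace ℝ (Fin (m + 1)) => x + r • z) =
        (fun y => x + y) ∘ (fun y => r • y) := rfl
    rw [e1, ← Measure.map_map (by fun_prop) (by fun_prop),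
      Measure.map_addHaar_smul volume hr.ne', Measure.map_smul, map_add_left_eq_self]
    congr 2
    rw [finrank_euclideanSpace_fin, abs_of_nonneg]
    positivity
  have e2 : ∫⁻ z in closedBall (0 : EuclideanSpace ℝ (Fin (m + 1))) 2, ‖fderiv ℝ h z‖ₑ ^ p =
      ENNReal.ofReal (r ^ (m + 1))⁻¹ * ∫⁻ z in closedBall x (2 * r), ‖fderiv ℝ F z‖ₑ ^ p := by
    rw [← smul_eq_mul, ← lintegral_smul_measure, ← Measure.restrict_smul, ← hmap,
      ← lintegral_indicator measurableSet_closedBall, ← lintegral_indicator measurableSet_closedBall,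
      lintegral_map (hmeas.indicator measurableSet_closedBall) (by fun_prop)]
    refine lintegral_congr fun z => ?_
    by_cases hz : z ∈ closedBall (0 : EuclideanSpace ℝ (Fin (m + 1))) 2
    · rw [indicator_of_mem hz, indicator_of_mem, hder]
      rw [mem_closedBall, dist_zero_right] at hz
      rw [mem_closedBall, dist_self_add_left, norm_smul, Real.norm_eq_abs, abs_of_pos hr]
      nlinarith
    · rw [indicator_of_notMem hz, indicator_of_notMem]
      rw [mem_closedBall, dist_zero_right] at hz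
      rw [mem_closedBall, dist_self_add_left, norm_smul, Real.norm_eq_abs, abs_of_pos hr]
      intro hcon
      apply hz
      nlinarith
  rw [e2] at h1
  have h2 : ENNReal.ofReal r ^ (m + 1) * ENNReal.ofReal (r ^ (m + 1))⁻¹ = 1 := by
    rw [← ENNReal.ofReal_pow hr.le, ← ENNReal.ofReal_mul (by positivity),
      mul_inv_cancel₀ (by positivity), ENNReal.ofReal_one]
  calc ENNReal.ofReal s ^ p * ENNReal.ofReal r ^ (m + 1)
      ≤ C * (ENNReal.ofReal (r ^ (m + 1))⁻¹ * ∫⁻ z in closedBall x (2 * r), ‖fderiv ℝ F z‖ₑ ^ p) *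
        ENNReal.ofReal r ^ (m + 1) := by gcongr
    _ = C * (∫⁻ z in closedBall x (2 * r), ‖fderiv ℝ F z‖ₑ ^ p) *
        (ENNReal.ofReal r ^ (m + 1) * ENNReal.ofReal (r ^ (m + 1))⁻¹) := by ring
    _ = _ := by rw [h2, mul_one]

end Pool.Agent.Work.MP_c03b87_an
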