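import Mathlib
import Pool.Agent.Work.MP_c03b87_an.Scaled

set_option autoImplicit false

open MeasureTheory Set Metric
open scoped ENNReal NNReal Topology Convolution

namespace Pool.Agent.Work.MP_c03b87_an

variable {n : ℕ}

theorem euclid_enorm_le_sum (w : EuclideanSpace ℝ (Fin n)) : ‖w‖ₑ ≤ ∑ i, ‖w i‖ₑ := by
  have h : w = ∑ i, EuclideanSpace.single i (w i) := by
    ext j
    simp [Finset.sum_apply]
  conv_lhs => rw [h]
  refine (enorm_sum_le _ _).trans ?_
  refine Finset.sum_le_sum fun i _ => ?_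
  rw [← ofReal_norm, ← ofReal_norm, PiLp.norm_single]

theorem opENorm_le_sum (L : EuclideanSpace ℝ (Fin n) →L[ℝ] EuclideanSpace ℝ (Fin n)) :
    ‖L‖ₑ ≤ ∑ j, ∑ i, ‖(L (EuclideanSpace.single j (1 : ℝ))) i‖ₑ := by
  refine ContinuousLinearMap.opENorm_le_bound _ fun v => ?_
  have h : v = ∑ j, (v j) • EuclideanSpace.single j (1 : ℝ) := by
    ext j
    simp [Finset.sum_apply, Pi.single_apply]
  conv_lhs => rw [h, map_sum]
  refine (enorm_sum_le _ _).trans ?_
  rw [Finset.sum_mul]
  refine Finset.sum_le_sum fun j _ => ?_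
  rw [map_smul, enorm_smul, mul_comm]
  gcongr
  · exact euclid_enorm_le_sum _
  · rw [← ofReal_norm, ← ofReal_norm]
    apply ENNReal.ofReal_le_ofReal
    exact PiLp.norm_apply_le v j

/-- Jensen for averages against a probability density -/
theorem jensen_density {α : Type*} [MeasurableSpace α] (μ : Measure α) (p : ℝ) (hp : 1 < p)
    (A k : α → ℝ≥0∞) (hA : AEMeasurable A μ) (hk : AEMeasurable k μ) (hk1 : ∫⁻ y, k y ∂μ ≤ 1) :
    (∫⁻ y, A y * k y ∂μ) ^ p ≤ ∫⁻ y, A y ^ p * k y ∂μ := by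
  have hp0 : 0 < p := by linarith
  have hpq : p.HolderConjugate (Real.conjExponent p) := Real.HolderConjugate.conjExponent hp
  set q := Real.conjExponent p with hq
  have hq0 : 0 < q := hpq.symm.pos
  have h1 := ENNReal.lintegral_mul_le_Lp_mul_Lq μ hpq
    (f := fun y => A y * k y ^ (1 / p)) (g := fun y => k y ^ (1 / q))
    (hA.mul (hk.pow_const _)) (hk.pow_const _)
  have e1 : ∫⁻ y, ((fun y => A y * k y ^ (1 / p)) * fun y => k y ^ (1 / q)) y ∂μ =
      ∫⁻ y, A y * k y ∂μ := by
    refine lintegral_congr fun y => ?_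
    simp only [Pi.mul_apply]
    rw [mul_assoc, ← ENNReal.rpow_add_of_nonneg _ _ (by positivity) (by positivity)]
    have : 1 / p + 1 / q = 1 := by
      have := hpq.inv_add_inv_eq_one
      rw [one_div, one_div]; exact this
    rw [this, ENNReal.rpow_one]
  have e2 : ∫⁻ y, (A y * k y ^ (1 / p)) ^ p ∂μ = ∫⁻ y, A y ^ p * k y ∂μ := by
    refine lintegral_congr fun y => ?_
    rw [ENNReal.mul_rpow_of_nonneg _ _ hp0.le, ← ENNReal.rpow_mul, one_div_mul_cancel hp0.ne',
      ENNReal.rpow_one]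
  have e3 : ∫⁻ y, (k y ^ (1 / q)) ^ q ∂μ = ∫⁻ y, k y ∂μ := by
    refine lintegral_congr fun y => ?_
    rw [← ENNReal.rpow_mul, one_div_mul_cancel hq0.ne', ENNReal.rpow_one]
  rw [e1, e2, e3] at h1
  calc (∫⁻ y, A y * k y ∂μ) ^ p ≤
      ((∫⁻ y, A y ^ p * k y ∂μ) ^ (1 / p) * (∫⁻ y, k y ∂μ) ^ (1 / q)) ^ p := by gcongr
    _ ≤ ((∫⁻ y, A y ^ p * k y ∂μ) ^ (1 / p) * (1 : ℝ≥0∞) ^ (1 / q)) ^ p := by gcongr
    _ = _ := by
      rw [ENNReal.one_rpow, mul_one, ← ENNReal.rpow_mul, one_div_mul_cancel hp0.ne',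
        ENNReal.rpow_one]

/-- mollifications: the derivative of a mollified map in terms of the weak derivative. -/
theorem mollified_derivative
    (Ω : Set (EuclideanSpace ℝ (Fin n)))
    (f : EuclideanSpace ℝ (Fin n) → EuclideanSpace ℝ (Fin n)) (hf : ContinuousOn f Ω)
    (g : Fin n → Fin n → EuclideanSpace ℝ (Fin n) → ℝ)
    (hw : ∀ (i j : Fin n) (φ : EuclideanSpace ℝ (Fin n) → ℝ),
        ContDiff ℝ ((⊤ : ℕ∞) : WithTop ℕ∞) φ → HasCompactSupport φ → tsupport φ ⊆ Ω →
        ∫ x, EuclideanSpace.proj i (f x) * fderiv ℝ φ x (EuclideanSpace.single j (1 : ℝ))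
          = - ∫ x, g i j x * φ x)
    (K' : Set (EuclideanSpace ℝ (Fin n))) (hK' : IsCompact K') (hKΩ : K' ⊆ Ω)
    (φ : ContDiffBump (0 : EuclideanSpace ℝ (Fin n)))
    (z : EuclideanSpace ℝ (Fin n)) (hz : closedBall z φ.rOut ⊆ K') (i j : Fin n) :
    (fderiv ℝ (φ.normed volume ⋆[ContinuousLinearMap.lsmul ℝ ℝ, volume] K'.indicator f) z
      (EuclideanSpace.single j (1 : ℝ))) i = ∫ y, g i j y * φ.normed volume (z - y) := by
  set φn : EuclideanSpace ℝ (Fin n) → ℝ := φ.normed volume with hφn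
  set ej := EuclideanSpace.single j (1 : ℝ) with hej
  have hK'm : MeasurableSet K' := hK'.measurableSet
  have hint : Integrable (K'.indicator f) volume := by
    rw [integrable_indicator_iff hK'm]
    exact (hf.mono hKΩ).integrableOn_compact hK'
  have hcs : HasCompactSupport φn := φ.hasCompactSupport_normed
  have hcd : ContDiff ℝ ((⊤ : ℕ∞) : WithTop ℕ∞) φn := φ.contDiff_normed
  have hcd1 : ContDiff ℝ 1 φn := hcd.of_le (by exact_mod_cast le_top)
  have hd := hcs.hasFDerivAt_convolution_left (ContinuousLinearMap.lsmul ℝ ℝ) hcd1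
    hint.locallyIntegrable z (𝕜 := ℝ) (E' := EuclideanSpace ℝ (Fin n))
    (F := EuclideanSpace ℝ (Fin n))
  rw [hd.fderiv]
  have hce : ConvolutionExistsAt (fderiv ℝ φn) (K'.indicator f) z
      (ContinuousLinearMap.precompL (EuclideanSpace ℝ (Fin n)) (ContinuousLinearMap.lsmul ℝ ℝ :
        ℝ →L[ℝ] EuclideanSpace ℝ (Fin n) →L[ℝ] EuclideanSpace ℝ (Fin n))) volume :=
    (hcs.fderiv ℝ).convolutionExists_left _ (hcd1.continuous_fderiv (by norm_num))
      hint.locallyIntegrable z
  rw [convolution_def, ContinuousLinearMap.integral_apply hce]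
  have h1 : (∫ t, ((ContinuousLinearMap.precompL (EuclideanSpace ℝ (Fin n))
      (ContinuousLinearMap.lsmul ℝ ℝ : ℝ →L[ℝ] EuclideanSpace ℝ (Fin n) →L[ℝ]
        EuclideanSpace ℝ (Fin n))) (fderiv ℝ φn t) (K'.indicator f (z - t))) ej) i =
      ∫ t, (fderiv ℝ φn t ej) * (K'.indicator f (z - t)) i := by
    have h2 : Integrable (fun t => ((ContinuousLinearMap.precompL (EuclideanSpace ℝ (Fin n))
      (ContinuousLinearMap.lsmul ℝ ℝ : ℝ →L[ℝ] EuclideanSpace ℝ (Fin n) →L[ℝ]
        EuclideanSpace ℝ (Fin n))) (fderiv ℝ φn t) (K'.indicator f (z - t))) ej) volume :=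
      (ContinuousLinearMap.apply ℝ (EuclideanSpace ℝ (Fin n)) ej).integrable_comp hce
    have h3 := (EuclideanSpace.proj (𝕜 := ℝ) i : EuclideanSpace ℝ (Fin n) →L[ℝ] ℝ).integral_comp_comm h2
    change (EuclideanSpace.proj (𝕜 := ℝ) i : EuclideanSpace ℝ (Fin n) →L[ℝ] ℝ) _ = _
    rw [← h3]
    rfl
  rw [h1]
  have h4 : ∫ t, (fderiv ℝ φn t ej) * (K'.indicator f (z - t)) i =
      ∫ y, (fderiv ℝ φn (z - y) ej) * (K'.indicator f y) i := by
    rw [← integral_sub_left_eq_self (fun t => (fderiv ℝ φn t ej) * (K'.indicator f (z - t)) i)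
      volume z]
    simp
  rw [h4]
  set ψ : EuclideanSpace ℝ (Fin n) → ℝ := fun y => φn (z - y) with hψ
  have hψd : ∀ y, fderiv ℝ ψ y ej = - fderiv ℝ φn (z - y) ej := by
    intro y
    have a1 : HasFDerivAt (fun y : EuclideanSpace ℝ (Fin n) => z - y)
        (-ContinuousLinearMap.id ℝ _) y := by
      have := (hasFDerivAt_id (𝕜 := ℝ) y).const_sub z
      simpa using this
    have a2 : HasFDerivAt ψ _ y :=
      ((hcd1.differentiable (by norm_num) (z - y)).hasFDerivAt).comp y a1
    rw [a2.fderiv]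
    simp
  have hψsupp : Function.support ψ ⊆ closedBall z φ.rOut := by
    intro y hy
    have h5 : z - y ∈ Function.support φn := hy
    rw [hφn, φ.support_normed_eq, mem_ball, dist_zero_right] at h5
    rw [mem_closedBall, dist_eq_norm, ← norm_neg, neg_sub]
    exact h5.le
  have hψt : tsupport ψ ⊆ closedBall z φ.rOut :=
    closure_minimal hψsupp isClosed_closedBall
  have hψc : HasCompactSupport ψ :=
    HasCompactSupport.of_support_subset_isCompact (isCompact_closedBall _ _) hψsupp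
  have hψs : ContDiff ℝ ((⊤ : ℕ∞) : WithTop ℕ∞) ψ := hcd.comp (contDiff_const.sub contDiff_id)
  have h6 := hw i j ψ hψs hψc ((hψt.trans hz).trans hKΩ)
  have h7 : ∫ y, (fderiv ℝ φn (z - y) ej) * (K'.indicator f y) i =
      - ∫ y, EuclideanSpace.proj i (f y) * fderiv ℝ ψ y ej := by
    rw [← integral_neg]
    refine integral_congr_ae (Filter.Eventually.of_forall fun y => ?_)
    have hpr : EuclideanSpace.proj (𝕜 := ℝ) i (f y) = (f y) i := rfl
    simp only [hψd y, hpr, mul_neg, neg_neg]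
    by_cases hy : y ∈ K'
    · rw [indicator_of_mem hy, mul_comm]
    · have h8 : y ∉ tsupport ψ := fun h => hy (hz (hψt h))
      have h9 : fderiv ℝ ψ y = 0 := by
        have := support_fderiv_subset (𝕜 := ℝ) (f := ψ)
        by_contra h
        exact h8 (this h)
      have h10 := hψd y
      rw [h9] at h10
      have h11 : fderiv ℝ φn (z - y) ej = 0 := by simpa using h10.symm
      rw [h11]; simp
  rw [h7, h6, neg_neg]

/-- the Hilbert-Schmidt norm of the weak derivative -/
noncomputable def hs (g : Fin n → Fin n → EuclideanSpace ℝ (Fin n) → ℝ)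
    (x : EuclideanSpace ℝ (Fin n)) : ℝ := Real.sqrt (∑ i, ∑ j, g i j x ^ 2)

theorem abs_le_hs (g : Fin n → Fin n → EuclideanSpace ℝ (Fin n) → ℝ)
    (x : EuclideanSpace ℝ (Fin n)) (i j : Fin n) : |g i j x| ≤ hs g x := by
  unfold hs
  apply Real.abs_le_sqrt
  calc g i j x ^ 2 ≤ ∑ j, g i j x ^ 2 :=
        Finset.single_le_sum (f := fun j => g i j x ^ 2) (fun _ _ => sq_nonneg _) (Finset.mem_univ j)
    _ ≤ ∑ i, ∑ j, g i j x ^ 2 :=
        Finset.single_le_sum (f := fun i => ∑ j, g i j x ^ 2)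
          (fun _ _ => Finset.sum_nonneg fun _ _ => sq_nonneg _) (Finset.mem_univ i)

theorem mollified_energy (p : ℝ) (hp : 1 < p)
    (Ω : Set (EuclideanSpace ℝ (Fin n)))
    (f : EuclideanSpace ℝ (Fin n) → EuclideanSpace ℝ (Fin n)) (hf : ContinuousOn f Ω)
    (g : Fin n → Fin n → EuclideanSpace ℝ (Fin n) → ℝ)
    (hg : ∀ i j, LocallyIntegrableOn (g i j) Ω volume)
    (hw : ∀ (i j : Fin n) (φ : EuclideanSpace ℝ (Fin n) → ℝ),
        ContDiff ℝ ((⊤ : ℕ∞) : WithTop ℕ∞) φ → HasCompactSupport φ → tsupport φ ⊆ Ω →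
        ∫ x, EuclideanSpace.proj i (f x) * fderiv ℝ φ x (EuclideanSpace.single j (1 : ℝ))
          = - ∫ x, g i j x * φ x)
    (K' : Set (EuclideanSpace ℝ (Fin n))) (hK' : IsCompact K') (hKΩ : K' ⊆ Ω)
    (K : Set (EuclideanSpace ℝ (Fin n))) (hKm : MeasurableSet K)
    (φ : ContDiffBump (0 : EuclideanSpace ℝ (Fin n)))
    (hz : ∀ z ∈ K, closedBall z φ.rOut ⊆ K') :
    ∫⁻ z in K, ‖fderiv ℝ (φ.normed volume ⋆[ContinuousLinearMap.lsmul ℝ ℝ, volume]
      K'.indicator f) z‖ₑ ^ p ≤
      ((n : ℝ≥0∞) * n) ^ p * ∫⁻ y in K', ENNReal.ofReal (hs g y) ^ p := by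
  have hp0 : 0 < p := by linarith
  have hK'm : MeasurableSet K' := hK'.measurableSet
  set φn : EuclideanSpace ℝ (Fin n) → ℝ := φ.normed volume with hφn
  set A : EuclideanSpace ℝ (Fin n) → ℝ≥0∞ := K'.indicator (fun y => ENNReal.ofReal (hs g y)) with hA
  have hgm : ∀ i j, AEMeasurable (g i j) (volume.restrict K') := fun i j =>
    ((hg i j).integrableOn_compact_subset hKΩ hK').aestronglyMeasurable.aemeasurable
  have hhs : AEMeasurable (hs g) (volume.restrict K') := by
    unfold hs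
    apply AEMeasurable.sqrt
    refine Finset.aemeasurable_fun_sum _ fun i _ => ?_
    refine Finset.aemeasurable_fun_sum _ fun j _ => ?_
    exact (hgm i j).pow_const 2
  have hAm : AEMeasurable A volume := by
    rw [hA, aemeasurable_indicator_iff hK'm]
    exact hhs.ennreal_ofReal
  have hφm : Measurable φn := φ.continuous_normed.measurable
  have hφ1 : ∫⁻ y, ENNReal.ofReal (φn y) = 1 := by
    rw [← ofReal_integral_eq_lintegral_ofReal φ.integrable_normed
      (Filter.Eventually.of_forall fun y => φ.nonneg_normed y), φ.integral_normed,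
      ENNReal.ofReal_one]
  -- pointwise bound
  have hpt : ∀ z ∈ K, ‖fderiv ℝ (φn ⋆[ContinuousLinearMap.lsmul ℝ ℝ, volume]
      K'.indicator f) z‖ₑ ≤ (n : ℝ≥0∞) * n * ∫⁻ y, A y * ENNReal.ofReal (φn (z - y)) := by
    intro z hzK
    refine (opENorm_le_sum _).trans ?_
    calc ∑ j, ∑ i, ‖(fderiv ℝ (φn ⋆[ContinuousLinearMap.lsmul ℝ ℝ, volume] K'.indicator f) z
          (EuclideanSpace.single j (1 : ℝ))) i‖ₑ
        ≤ ∑ _j : Fin n, ∑ _i : Fin n, ∫⁻ y, A y * ENNReal.ofReal (φn (z - y)) := by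
          refine Finset.sum_le_sum fun j _ => Finset.sum_le_sum fun i _ => ?_
          rw [mollified_derivative Ω f hf g hw K' hK' hKΩ φ z (hz z hzK) i j]
          refine (enorm_integral_le_lintegral_enorm _).trans ?_
          refine lintegral_mono fun y => ?_
          rw [enorm_mul]
          by_cases hy : y ∈ K'
          · rw [hA, indicator_of_mem hy]
            gcongr
            · rw [← ofReal_norm]
              exact ENNReal.ofReal_le_ofReal (abs_le_hs g y i j)
            · rw [← ofReal_norm, Real.norm_of_nonneg (φ.nonneg_normed _)]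
          · have h0 : φn (z - y) = 0 := by
              by_contra h
              have h5 : z - y ∈ Function.support φn := h
              rw [hφn, φ.support_normed_eq, mem_ball, dist_zero_right] at h5
              apply hy
              apply hz z hzK
              rw [mem_closedBall, dist_eq_norm, ← norm_neg, neg_sub]
              exact h5.le
            change ‖g i j y‖ₑ * ‖φn (z - y)‖ₑ ≤ _
            rw [h0]; simp
      _ = _ := by
          simp only [Finset.sum_const, Finset.card_univ, Fintype.card_fin, nsmul_eq_mul]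
          ring
  calc ∫⁻ z in K, ‖fderiv ℝ (φn ⋆[ContinuousLinearMap.lsmul ℝ ℝ, volume]
      K'.indicator f) z‖ₑ ^ p
      ≤ ∫⁻ z in K, ((n : ℝ≥0∞) * n) ^ p * ∫⁻ y, A y ^ p * ENNReal.ofReal (φn (z - y)) := by
        refine setLIntegral_mono' hKm fun z hzK => ?_
        refine (ENNReal.rpow_le_rpow (hpt z hzK) hp0.le).trans ?_
        rw [ENNReal.mul_rpow_of_nonneg _ _ hp0.le]
        gcongr
        apply jensen_density volume p hp A (fun y => ENNReal.ofReal (φn (z - y))) hAm
        · exact ((hφm.comp (by fun_prop)).ennreal_ofReal).aemeasurable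
        · rw [lintegral_sub_left_eq_self (fun y => ENNReal.ofReal (φn y)) z, hφ1]
    _ = ((n : ℝ≥0∞) * n) ^ p * ∫⁻ z in K, ∫⁻ y, A y ^ p * ENNReal.ofReal (φn (z - y)) := by
        rw [lintegral_const_mul'']
        apply AEMeasurable.lintegral_prod_right' (f := fun q : EuclideanSpace ℝ (Fin n) ×
          EuclideanSpace ℝ (Fin n) => A q.2 ^ p * ENNReal.ofReal (φn (q.1 - q.2)))
        apply AEMeasurable.mul
        · exact (hAm.pow_const p).comp_snd
        · exact ((hφm.comp (by fun_prop)).ennreal_ofReal).aemeasurable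
    _ = ((n : ℝ≥0∞) * n) ^ p * ∫⁻ y, ∫⁻ z in K, A y ^ p * ENNReal.ofReal (φn (z - y)) := by
        rw [lintegral_lintegral_swap]
        apply AEMeasurable.mul
        · exact (hAm.pow_const p).comp_snd
        · exact ((hφm.comp (by fun_prop)).ennreal_ofReal).aemeasurable
    _ ≤ ((n : ℝ≥0∞) * n) ^ p * ∫⁻ y, A y ^ p := by
        gcongr with y
        have hmz : Measurable (fun z : EuclideanSpace ℝ (Fin n) => ENNReal.ofReal (φn (z - y))) :=
          (hφm.comp (measurable_id.sub_const y)).ennreal_ofReal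
        rw [lintegral_const_mul _ hmz]
        calc A y ^ p * ∫⁻ z in K, ENNReal.ofReal (φn (z - y)) ≤ A y ^ p * 1 := by
              gcongr
              refine (setLIntegral_le_lintegral _ _).trans ?_
              rw [lintegral_sub_right_eq_self (fun z => ENNReal.ofReal (φn z)) y, hφ1]
          _ = _ := mul_one _
    _ = _ := by
        congr 1
        rw [← lintegral_indicator hK'm]
        refine lintegral_congr fun y => ?_
        by_cases hy : y ∈ K'
        · rw [hA, indicator_of_mem hy, indicator_of_mem hy]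
        · rw [hA, indicator_of_notMem hy, indicator_of_notMem hy, ENNReal.zero_rpow_of_pos hp0]

end Pool.Agent.Work.MP_c03b87_an
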