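import Mathlib
import Pool.Agent.Work.MP_c03b87_an.Mollify

set_option autoImplicit false

open MeasureTheory Set Metric
open scoped ENNReal NNReal Topology Convolution

namespace Pool.Agent.Work.MP_c03b87_an

/-- oscillation lemma for continuous monotone maps with a weak derivative -/
theorem gehring (m : ℕ) (hm : 1 ≤ m) (p : ℝ) (hp : (m : ℝ) < p) :
    ∃ C : ℝ≥0∞, C ≠ ∞ ∧ ∀ (Ω : Set (EuclideanSpace ℝ (Fin (m + 1))))
      (f : EuclideanSpace ℝ (Fin (m + 1)) → EuclideanSpace ℝ (Fin (m + 1))), ContinuousOn f Ω →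
      (∀ (x : EuclideanSpace ℝ (Fin (m + 1))) (r : ℝ), 0 < r → Metric.closedBall x r ⊆ Ω →
        Metric.diam (f '' Metric.closedBall x r) ≤ Metric.diam (f '' Metric.sphere x r)) →
      ∀ (g : Fin (m + 1) → Fin (m + 1) → EuclideanSpace ℝ (Fin (m + 1)) → ℝ),
      (∀ i j, LocallyIntegrableOn (g i j) Ω volume) →
      (∀ (i j : Fin (m + 1)) (φ : EuclideanSpace ℝ (Fin (m + 1)) → ℝ),
        ContDiff ℝ ((⊤ : ℕ∞) : WithTop ℕ∞) φ → HasCompactSupport φ → tsupport φ ⊆ Ω →
        ∫ x, EuclideanSpace.proj i (f x) * fderiv ℝ φ x (EuclideanSpace.single j (1 : ℝ))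
          = - ∫ x, g i j x * φ x) →
      ∀ (x : EuclideanSpace ℝ (Fin (m + 1))) (r s : ℝ), 0 < r → 0 ≤ s →
        closedBall x (3 * r) ⊆ Ω → s * r < Metric.diam (f '' closedBall x r) →
        ENNReal.ofReal s ^ p * ENNReal.ofReal r ^ (m + 1) ≤
          C * ∫⁻ z in closedBall x (3 * r), ENNReal.ofReal (hs g z) ^ p := by
  obtain ⟨C, hCtop, hC⟩ := sphere_lemma_scaled (W := EuclideanSpace ℝ (Fin (m + 1))) m hm p hp
  have hp1 : 1 < p := lt_of_le_of_lt (by exact_mod_cast hm) hp
  have hp0 : 0 < p := by linarith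
  refine ⟨C * (((m + 1 : ℕ) : ℝ≥0∞) * ((m + 1 : ℕ) : ℝ≥0∞)) ^ p, ENNReal.mul_ne_top hCtop
    (ENNReal.rpow_ne_top_of_nonneg hp0.le
      (ENNReal.mul_ne_top (ENNReal.natCast_ne_top _) (ENNReal.natCast_ne_top _))), ?_⟩
  intro Ω f hf hmono g hg hw x r s hr hs hball hdiam
  set K' := closedBall x (3 * r) with hK'
  set K := closedBall x (2 * r) with hK
  have hK'c : IsCompact K' := isCompact_closedBall _ _
  have hKK' : K ⊆ K' := closedBall_subset_closedBall (by linarith)
  -- a slightly larger slope
  obtain ⟨s', hs's, hs'd⟩ : ∃ s', s < s' ∧ s' * r < Metric.diam (f '' closedBall x r) := by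
    refine ⟨(s + Metric.diam (f '' closedBall x r) / r) / 2, ?_, ?_⟩
    · have : s < Metric.diam (f '' closedBall x r) / r := by rw [lt_div_iff₀ hr]; exact hdiam
      linarith
    · have h1 : Metric.diam (f '' closedBall x r) / r * r = Metric.diam (f '' closedBall x r) :=
        div_mul_cancel₀ _ hr.ne'
      nlinarith
  have hs'0 : 0 < s' := lt_of_le_of_lt hs hs's
  have hsph : ∀ t ∈ Icc r (2 * r), ∃ a b : EuclideanSpace ℝ (Fin (m + 1)), dist a x = t ∧
      dist b x = t ∧ s' * r < dist (f a) (f b) := by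
    intro t ht
    have ht0 : 0 < t := lt_of_lt_of_le hr ht.1
    have htK : closedBall x t ⊆ K' := closedBall_subset_closedBall (by linarith [ht.2])
    have h1 : Metric.diam (f '' closedBall x r) ≤ Metric.diam (f '' closedBall x t) := by
      apply Metric.diam_mono (image_mono (closedBall_subset_closedBall ht.1))
      exact ((isCompact_closedBall x t).image_of_continuousOn (hf.mono (htK.trans hball))).isBounded
    have h2 := hmono x t ht0 (htK.trans hball)
    by_contra hcon
    push Not at hcon
    have h3 : Metric.diam (f '' sphere x t) ≤ s' * r := by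
      apply Metric.diam_le_of_forall_dist_le (by positivity)
      rintro _ ⟨a, ha, rfl⟩ _ ⟨b, hb, rfl⟩
      exact hcon a b ha hb
    linarith
  set η := (s' - s) * r / 2 with hη
  have hη0 : 0 < η := by
    have : 0 < s' - s := by linarith
    positivity
  have huc : UniformContinuousOn f K' := hK'c.uniformContinuousOn_of_continuous (hf.mono hball)
  rw [Metric.uniformContinuousOn_iff] at huc
  obtain ⟨ε, hε0, hε⟩ := huc η hη0
  set ρ := min ε r with hρ
  have hρ0 : 0 < ρ := lt_min hε0 hr
  let φ : ContDiffBump (0 : EuclideanSpace ℝ (Fin (m + 1))) :=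
    { rIn := ρ / 2, rOut := ρ, rIn_pos := by positivity, rIn_lt_rOut := by linarith }
  have hφr : φ.rOut = ρ := rfl
  set F := (φ.normed volume ⋆[ContinuousLinearMap.lsmul ℝ ℝ, volume] K'.indicator f) with hF
  have hK'm : MeasurableSet K' := measurableSet_closedBall
  have hint : Integrable (K'.indicator f) volume := by
    rw [integrable_indicator_iff hK'm]
    exact (hf.mono hball).integrableOn_compact hK'c
  have hFd : ContDiff ℝ 1 F := by
    apply HasCompactSupport.contDiff_convolution_left _ φ.hasCompactSupport_normed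
      (φ.contDiff_normed (n := 1)) hint.locallyIntegrable
  have hKball : ∀ z ∈ K, closedBall z φ.rOut ⊆ K' := by
    intro z hz
    apply closedBall_subset_closedBall'
    rw [hφr]
    have h1 : dist z x ≤ 2 * r := hz
    have h2 : ρ ≤ r := min_le_right _ _
    linarith
  have happ : ∀ a ∈ K, dist (F a) (f a) ≤ η := by
    intro a ha
    have h1 : K'.indicator f a = f a := indicator_of_mem (hKK' ha) f
    have h2 : dist (F a) (K'.indicator f a) ≤ η := by
      apply ContDiffBump.dist_normed_convolution_le hint.aestronglyMeasurable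
      intro y hy
      have hyK : y ∈ K' := hKball a ha (ball_subset_closedBall hy)
      rw [h1, indicator_of_mem hyK]
      apply (hε y hyK a (hKK' ha) _).le
      exact lt_of_lt_of_le (mem_ball.1 hy) (min_le_left _ _)
    rwa [h1] at h2
  have h3 := hC F hFd x r s hr hs (by
    intro t ht
    obtain ⟨a, b, ha, hb, hab⟩ := hsph t ht
    refine ⟨a, b, ha, hb, ?_⟩
    have haK : a ∈ K := by rw [hK, mem_closedBall, ha]; exact ht.2
    have hbK : b ∈ K := by rw [hK, mem_closedBall, hb]; exact ht.2
    have h4 := happ a haK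
    have h5 := happ b hbK
    have h6 : dist (f a) (f b) ≤ dist (F a) (f a) + dist (F a) (F b) + dist (F b) (f b) := by
      have := dist_triangle4 (f a) (F a) (F b) (f b)
      rw [dist_comm (f a) (F a)] at this
      exact this
    rw [← dist_eq_norm]
    have h7 : s' * r - 2 * η = s * r := by rw [hη]; ring
    linarith)
  refine h3.trans ?_
  rw [mul_assoc]
  gcongr
  exact mollified_energy p hp1 Ω f hf g hg hw K' hK'c hball K measurableSet_closedBall φ hKball

end Pool.Agent.Work.MP_c03b87_an
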