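import Mathlib

set_option autoImplicit false

open MeasureTheory Set Metric
open scoped ENNReal NNReal Topology

namespace Pool.Agent.Work.MP_c03b87_an

theorem sum_two_pow_div (m : ℕ) (hm : 1 ≤ m) :
    ∑ k ∈ Finset.range m, (2 : ℝ) ^ (k + 1) / (k + 1) ≤ 4 * 2 ^ m / m := by
  induction m, hm using Nat.le_induction with
  | base => norm_num
  | succ m hm ih =>
    rw [Finset.sum_range_succ]
    have hm' : (1 : ℝ) ≤ m := by exact_mod_cast hm
    have h2 : (0 : ℝ) < 2 ^ m := by positivity
    rcases hm.eq_or_lt with h1 | h1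
    · subst h1
      norm_num
    · have h3 : (2 : ℝ) ≤ m := by exact_mod_cast h1
      calc (∑ k ∈ Finset.range m, (2 : ℝ) ^ (k + 1) / (k + 1)) + 2 ^ (m + 1) / (m + 1)
          ≤ 4 * 2 ^ m / m + 2 ^ (m + 1) / (m + 1) := by gcongr
        _ ≤ 4 * 2 ^ (m + 1) / ((m + 1 : ℕ) : ℝ) := by
          push_cast
          rw [pow_succ]
          rw [div_add_div _ _ (by positivity) (by positivity), div_le_div_iff₀ (by positivity) (by positivity)]
          have : (4 * 2 ^ m * ((m : ℝ) + 1) + m * (2 ^ m * 2)) ≤ 4 * (2 ^ m * 2) * m := by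
            nlinarith
          nlinarith

/-- the dyadic weight -/
noncomputable def wt (η : ℝ) (k : ℕ) (y : ℝ) : ℝ≥0∞ :=
  if η * 4 ^ (k + 1) < y then ENNReal.ofReal (2 ^ (k + 1) / (k + 1)) else 0

theorem tsum_wt_le (η : ℝ) (hη : 0 < η) (hη1 : η ≤ 1) (y : ℝ) (hy : 0 ≤ y) :
    ∑' k, wt η k y ≤ ENNReal.ofReal (20 / Real.sqrt η) *
      ENNReal.ofReal (Real.sqrt y / Real.log (Real.exp 1 + y)) := by
  rcases le_or_gt y (4 * η) with h | h
  · have : ∀ k, wt η k y = 0 := by
      intro k
      unfold wt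
      rw [if_neg]
      push Not
      have : (4 : ℝ) ≤ 4 ^ (k + 1) := by
        calc (4 : ℝ) = 4 ^ 1 := by norm_num
          _ ≤ 4 ^ (k + 1) := pow_le_pow_right₀ (by norm_num) (by omega)
      nlinarith
    simp only [this, tsum_zero, zero_le]
  · have hyη : 4 < y / η := by rw [lt_div_iff₀ hη]; exact h
    obtain ⟨m, hm1, hm2⟩ := exists_nat_pow_near (x := y / η) (y := (4 : ℝ)) (by linarith) (by norm_num)
    have hm : 1 ≤ m := by
      by_contra hcon
      have : m = 0 := by omega
      subst this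
      norm_num at hm2
      linarith
    have hmR : (1 : ℝ) ≤ m := by exact_mod_cast hm
    have hsum : ∑' k, wt η k y ≤ ∑ k ∈ Finset.range m, ENNReal.ofReal (2 ^ (k + 1) / (k + 1)) := by
      rw [tsum_eq_sum (s := Finset.range m)]
      · refine Finset.sum_le_sum fun k _ => ?_
        unfold wt
        split_ifs
        · exact le_rfl
        · exact zero_le
      · intro k hk
        unfold wt
        rw [if_neg]
        intro hcon
        apply hk
        rw [Finset.mem_range]
        have h1 : (4 : ℝ) ^ (k + 1) < 4 ^ (m + 1) := by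
          have : (4 : ℝ) ^ (k + 1) < y / η := by
            rw [lt_div_iff₀ hη]; linarith
          linarith
        have h2 := (pow_lt_pow_iff_right₀ (by norm_num : (1 : ℝ) < 4)).1 h1
        omega
    refine hsum.trans ?_
    rw [← ENNReal.ofReal_sum_of_nonneg (fun k _ => by positivity),
      ← ENNReal.ofReal_mul (by positivity)]
    apply ENNReal.ofReal_le_ofReal
    refine (sum_two_pow_div m hm).trans ?_
    have hy0 : 0 < y := by nlinarith
    have hlog0 : 0 < Real.log (Real.exp 1 + y) := by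
      apply Real.log_pos
      have := Real.add_one_le_exp (1 : ℝ)
      linarith
    have h2m : (2 : ℝ) ^ m ≤ Real.sqrt y / Real.sqrt η := by
      rw [← Real.sqrt_div hy0.le]
      apply Real.le_sqrt_of_sq_le
      calc ((2 : ℝ) ^ m) ^ 2 = 4 ^ m := by rw [← pow_mul, mul_comm, pow_mul]; norm_num
        _ ≤ y / η := hm1
    have hlog : Real.log (Real.exp 1 + y) ≤ 5 * m := by
      have h1 : Real.exp 1 + y ≤ 4 ^ (m + 2) := by
        have he : Real.exp 1 < 3 := Real.exp_one_lt_three
        have hyy : y ≤ y / η := by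
          rw [le_div_iff₀ hη]; nlinarith
        have : (4 : ℝ) ^ (m + 2) = 4 * 4 ^ (m + 1) := by ring
        rw [this]
        nlinarith
      calc Real.log (Real.exp 1 + y) ≤ Real.log (4 ^ (m + 2)) :=
            Real.log_le_log (by positivity) h1
        _ = (m + 2) * Real.log 4 := by rw [Real.log_pow]; push_cast; ring
        _ ≤ (3 * m) * (5 / 3) := by
            have hl4 : Real.log 4 ≤ 5 / 3 := by
              have : Real.log 4 = 2 * Real.log 2 := by
                rw [show (4 : ℝ) = 2 ^ 2 by norm_num, Real.log_pow]; norm_num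
              rw [this]
              have := Real.log_two_lt_d9
              linarith
            have hl40 : 0 ≤ Real.log 4 := Real.log_nonneg (by norm_num)
            nlinarith
        _ = 5 * m := by ring
    have hsη : 0 < Real.sqrt η := Real.sqrt_pos.2 hη
    have hsy : 0 < Real.sqrt y := Real.sqrt_pos.2 hy0
    calc 4 * 2 ^ m / (m : ℝ) ≤ 4 * (Real.sqrt y / Real.sqrt η) / m := by gcongr
      _ = 20 / Real.sqrt η * (Real.sqrt y / (5 * m)) := by
          field_simp
          norm_num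
      _ ≤ 20 / Real.sqrt η * (Real.sqrt y / Real.log (Real.exp 1 + y)) := by
          gcongr

theorem eq_zero_of_forall_weight {α : Type*} [MeasurableSpace α] (μ : Measure α)
    (m : ℕ) (η : ℝ) (hη : 0 < η) (hη1 : η ≤ 1)
    (G : α → ℝ) (hG0 : ∀ a, 0 ≤ G a) (hG : AEMeasurable G μ)
    (hfin : ∫⁻ a, ENNReal.ofReal (G a ^ (m + 1) / Real.log (Real.exp 1 + G a)) ∂μ ≠ ∞)
    (c C : ℝ≥0∞) (hC : C ≠ ∞) (k₀ : ℕ)
    (hc : ∀ k ≥ k₀, c ≤ C * (2 : ℝ≥0∞) ^ (k + 1) *
      ∫⁻ a, (if η * 4 ^ (k + 1) < G a then ENNReal.ofReal (G a) ^ ((m : ℝ) + 1 / 2) else 0) ∂μ) :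
    c = 0 := by
  by_contra hc0
  set p : ℝ := (m : ℝ) + 1 / 2 with hp
  have hterm : ∀ k a, wt η k (G a) * ENNReal.ofReal (G a) ^ p =
      ENNReal.ofReal (1 / ((k : ℝ) + 1)) * ((2 : ℝ≥0∞) ^ (k + 1) *
        (if η * 4 ^ (k + 1) < G a then ENNReal.ofReal (G a) ^ p else 0)) := by
    intro k a
    unfold wt
    split_ifs with h
    · rw [← mul_assoc]
      congr 1
      rw [div_eq_mul_one_div, mul_comm, ENNReal.ofReal_mul (by positivity)]
      congr 1
      rw [ENNReal.ofReal_pow (by norm_num)]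
      norm_num
    · simp
  have hmeas : ∀ k, AEMeasurable (fun a => if η * 4 ^ (k + 1) < G a then
      ENNReal.ofReal (G a) ^ p else 0) μ := by
    intro k
    have h1 : Measurable (fun x : ℝ => if η * 4 ^ (k + 1) < x then
      ENNReal.ofReal x ^ p else 0) := by
      apply Measurable.ite
      · exact measurableSet_lt measurable_const measurable_id
      · exact (ENNReal.measurable_ofReal).pow_const p
      · exact measurable_const
    exact h1.comp_aemeasurable hG
  -- total bound
  have htot : ∑' k : ℕ, ∫⁻ a, wt η k (G a) * ENNReal.ofReal (G a) ^ p ∂μ ≠ ∞ := by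
    rw [← lintegral_tsum]
    · refine ne_top_of_le_ne_top (ENNReal.mul_ne_top ENNReal.ofReal_ne_top hfin)
        (b := ENNReal.ofReal (20 / Real.sqrt η) *
          ∫⁻ a, ENNReal.ofReal (G a ^ (m + 1) / Real.log (Real.exp 1 + G a)) ∂μ) ?_
      rw [← lintegral_const_mul' _ _ ENNReal.ofReal_ne_top]
      refine lintegral_mono fun a => ?_
      rw [ENNReal.tsum_mul_right]
      have h1 := tsum_wt_le η hη hη1 (G a) (hG0 a)
      calc (∑' k, wt η k (G a)) * ENNReal.ofReal (G a) ^ p
          ≤ (ENNReal.ofReal (20 / Real.sqrt η) *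
            ENNReal.ofReal (Real.sqrt (G a) / Real.log (Real.exp 1 + G a))) *
              ENNReal.ofReal (G a) ^ p := by gcongr
        _ = ENNReal.ofReal (20 / Real.sqrt η) *
            ENNReal.ofReal (G a ^ (m + 1) / Real.log (Real.exp 1 + G a)) := by
          rw [mul_assoc]
          congr 1
          rw [ENNReal.ofReal_rpow_of_nonneg (hG0 a) (by positivity),
            ← ENNReal.ofReal_mul]
          · congr 1
            rw [div_mul_eq_mul_div]
            congr 1
            rw [Real.sqrt_eq_rpow, ← Real.rpow_natCast, ← Real.rpow_add_of_nonneg (hG0 a)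
              (by positivity) (by positivity)]
            congr 1
            rw [hp]; push_cast; ring
          · have : 0 ≤ Real.log (Real.exp 1 + G a) := by
              apply Real.log_nonneg
              have := Real.add_one_le_exp (1 : ℝ)
              linarith [hG0 a]
            positivity
    · intro k
      have h2 : (fun a => wt η k (G a) * ENNReal.ofReal (G a) ^ p) = fun a =>
        ENNReal.ofReal (1 / ((k : ℝ) + 1)) * ((2 : ℝ≥0∞) ^ (k + 1) *
        (if η * 4 ^ (k + 1) < G a then ENNReal.ofReal (G a) ^ p else 0)) := by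
        funext a; exact hterm k a
      rw [h2]
      exact ((hmeas k).const_mul _).const_mul _
  -- lower bound
  have hlow : ∀ k ≥ k₀, ENNReal.ofReal (1 / ((k : ℝ) + 1)) * c ≤
      C * ∫⁻ a, wt η k (G a) * ENNReal.ofReal (G a) ^ p ∂μ := by
    intro k hk
    have h1 : ∫⁻ a, wt η k (G a) * ENNReal.ofReal (G a) ^ p ∂μ =
        ENNReal.ofReal (1 / ((k : ℝ) + 1)) * ((2 : ℝ≥0∞) ^ (k + 1) *
        ∫⁻ a, (if η * 4 ^ (k + 1) < G a then ENNReal.ofReal (G a) ^ p else 0) ∂μ) := by
      rw [← lintegral_const_mul'' _ (hmeas k), ← lintegral_const_mul'' _ ((hmeas k).const_mul _)]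
      exact lintegral_congr fun a => hterm k a
    rw [h1]
    calc ENNReal.ofReal (1 / ((k : ℝ) + 1)) * c ≤ ENNReal.ofReal (1 / ((k : ℝ) + 1)) *
          (C * (2 : ℝ≥0∞) ^ (k + 1) *
      ∫⁻ a, (if η * 4 ^ (k + 1) < G a then ENNReal.ofReal (G a) ^ ((m : ℝ) + 1 / 2) else 0) ∂μ) := by
          gcongr
          exact hc k hk
      _ = _ := by ring
  have hdiv : ∑' k : ℕ, ENNReal.ofReal (1 / (((k + k₀ : ℕ) : ℝ) + 1)) = ∞ := by
    by_contra hne
    have h1 : Summable (fun k : ℕ => 1 / (((k + k₀ : ℕ) : ℝ) + 1)) := by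
      have := ENNReal.summable_toReal hne
      refine this.congr fun k => ?_
      rw [ENNReal.toReal_ofReal (by positivity)]
    have h2 : Summable (fun k : ℕ => 1 / ((k : ℝ) + 1)) :=
      (summable_nat_add_iff (f := fun k : ℕ => 1 / ((k : ℝ) + 1)) k₀).1 h1
    have h3 : Summable (fun k : ℕ => 1 / (k : ℝ)) := by
      rw [← summable_nat_add_iff 1]
      refine h2.congr fun k => ?_
      push_cast; rfl
    exact Real.not_summable_one_div_natCast h3
  have h4 : (∑' k : ℕ, ENNReal.ofReal (1 / (((k + k₀ : ℕ) : ℝ) + 1))) * c ≤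
      C * ∑' k : ℕ, ∫⁻ a, wt η k (G a) * ENNReal.ofReal (G a) ^ p ∂μ := by
    rw [← ENNReal.tsum_mul_right, ← ENNReal.tsum_mul_left]
    calc ∑' k : ℕ, ENNReal.ofReal (1 / (((k + k₀ : ℕ) : ℝ) + 1)) * c
        ≤ ∑' k : ℕ, C * ∫⁻ a, wt η (k + k₀) (G a) * ENNReal.ofReal (G a) ^ p ∂μ :=
          ENNReal.tsum_le_tsum fun k => hlow (k + k₀) (by omega)
      _ ≤ ∑' k : ℕ, C * ∫⁻ a, wt η k (G a) * ENNReal.ofReal (G a) ^ p ∂μ :=
          ENNReal.tsum_comp_le_tsum_of_injective (add_left_injective k₀)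
            (fun k => C * ∫⁻ a, wt η k (G a) * ENNReal.ofReal (G a) ^ p ∂μ)
  rw [hdiv, ENNReal.top_mul hc0] at h4
  exact ENNReal.mul_ne_top hC htot (top_le_iff.1 h4)

end Pool.Agent.Work.MP_c03b87_an
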