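import Mathlib
import Pool.Agent.Work.MP_c03b87_an.Gehring
import Pool.Agent.Work.MP_c03b87_an.Series

set_option autoImplicit false

open MeasureTheory Set Metric
open scoped ENNReal NNReal Topology Convolution

namespace Pool.Agent.Work.MP_c03b87_an

/-- volume is controlled by the diameter -/
theorem volume_le_diam (n : ℕ) (S : Set (EuclideanSpace ℝ (Fin n))) (hS : Bornology.IsBounded S)
    (hne : S.Nonempty) (d : ℝ) (hd0 : 0 ≤ d) (hd : Metric.diam S ≤ d) :
    volume S ≤ ENNReal.ofReal d ^ n * volume (closedBall (0 : EuclideanSpace ℝ (Fin n)) 1) := by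
  obtain ⟨y, hy⟩ := hne
  have h1 : S ⊆ closedBall y d := fun z hz =>
    (Metric.dist_le_diam_of_mem hS hz hy).trans hd
  refine (measure_mono h1).trans ?_
  rw [Measure.addHaar_closedBall' volume y hd0, finrank_euclideanSpace_fin, ENNReal.ofReal_pow hd0]

/-- points of a ball where the slope of the oscillation exceeds `t` at some scale -/
def steep {n : ℕ} (f : EuclideanSpace ℝ (Fin n) → EuclideanSpace ℝ (Fin n))
    (x₀ : EuclideanSpace ℝ (Fin n)) (ρ t : ℝ) : Set (EuclideanSpace ℝ (Fin n)) :=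
  {x | x ∈ closedBall x₀ ρ ∧ ∃ r, 0 < r ∧ r ≤ ρ ∧ t * r < Metric.diam (f '' closedBall x r)}

theorem exists_stopping {n : ℕ} (f : EuclideanSpace ℝ (Fin n) → EuclideanSpace ℝ (Fin n))
    (x₀ : EuclideanSpace ℝ (Fin n)) (ρ t : ℝ) (x : EuclideanSpace ℝ (Fin n))
    (hx : x ∈ steep f x₀ ρ t) :
    ∃ r, 0 < r ∧ r ≤ ρ ∧ t * r < Metric.diam (f '' closedBall x r) ∧
      ∀ r', 2 * r ≤ r' → r' ≤ ρ → Metric.diam (f '' closedBall x r') ≤ t * r' := by
  set S := {r : ℝ | 0 < r ∧ r ≤ ρ ∧ t * r < Metric.diam (f '' closedBall x r)} with hS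
  obtain ⟨_, r₁, hr1, hr2, hr3⟩ := hx
  have hne : S.Nonempty := ⟨r₁, hr1, hr2, hr3⟩
  have hbdd : BddAbove S := ⟨ρ, fun r hr => hr.2.1⟩
  have hpos : 0 < sSup S := lt_of_lt_of_le hr1 (le_csSup hbdd ⟨hr1, hr2, hr3⟩)
  obtain ⟨r, hrS, hr⟩ := exists_lt_of_lt_csSup hne (half_lt_self hpos)
  refine ⟨r, hrS.1, hrS.2.1, hrS.2.2, fun r' h1 h2 => ?_⟩
  by_contra hcon
  push Not at hcon
  have h3 : r' ≤ sSup S := le_csSup hbdd ⟨by linarith [hrS.1], h2, hcon⟩
  linarith

theorem cover_bound (m : ℕ) (hm : 1 ≤ m) (Ω : Set (EuclideanSpace ℝ (Fin (m + 1))))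
      (f : EuclideanSpace ℝ (Fin (m + 1)) → EuclideanSpace ℝ (Fin (m + 1))) (hf : ContinuousOn f Ω)
      (hmono : ∀ (x : EuclideanSpace ℝ (Fin (m + 1))) (r : ℝ), 0 < r → Metric.closedBall x r ⊆ Ω →
        Metric.diam (f '' Metric.closedBall x r) ≤ Metric.diam (f '' Metric.sphere x r))
      (g : Fin (m + 1) → Fin (m + 1) → EuclideanSpace ℝ (Fin (m + 1)) → ℝ)
      (hg : ∀ i j, LocallyIntegrableOn (g i j) Ω volume)
      (hw : ∀ (i j : Fin (m + 1)) (φ : EuclideanSpace ℝ (Fin (m + 1)) → ℝ),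
        ContDiff ℝ ((⊤ : ℕ∞) : WithTop ℕ∞) φ → HasCompactSupport φ → tsupport φ ⊆ Ω →
        ∫ x, EuclideanSpace.proj i (f x) * fderiv ℝ φ x (EuclideanSpace.single j (1 : ℝ))
          = - ∫ x, g i j x * φ x)
      (x₀ : EuclideanSpace ℝ (Fin (m + 1))) (ρ : ℝ) (hρ : 0 < ρ) (hΩ : closedBall x₀ (4 * ρ) ⊆ Ω) :
    ∃ η : ℝ, 0 < η ∧ η ≤ 1 ∧ ∃ C : ℝ≥0∞, C ≠ ∞ ∧ ∃ t₀ : ℝ, ∀ t, t₀ ≤ t →
      volume (f '' steep f x₀ ρ t) ≤ C * ENNReal.ofReal t ^ (1 / 2 : ℝ) *
        ∫⁻ z in closedBall x₀ (4 * ρ), (if η * t < hs g z then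
          ENNReal.ofReal (hs g z) ^ ((m : ℝ) + 1 / 2) else 0) := by
  set p : ℝ := (m : ℝ) + 1 / 2 with hp
  have hp0 : 0 < p := by positivity
  obtain ⟨C, hCtop, hC⟩ := gehring m hm p (by rw [hp]; linarith)
  set K' := closedBall x₀ (4 * ρ) with hK'
  have hK'c : IsCompact K' := isCompact_closedBall _ _
  set v₁ := volume (closedBall (0 : EuclideanSpace ℝ (Fin (m + 1))) 1) with hv₁
  have hv₁top : v₁ ≠ ∞ := measure_closedBall_lt_top.ne
  -- choice of η
  obtain ⟨η, hη0, hη1, hη⟩ : ∃ η : ℝ, 0 < η ∧ η ≤ 1 ∧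
      C * (ENNReal.ofReal η ^ p * (3 ^ (m + 1) * v₁)) ≤ 1 / 2 := by
    have hD : C * (3 ^ (m + 1) * v₁) ≠ ∞ :=
      ENNReal.mul_ne_top hCtop (ENNReal.mul_ne_top (by simp) hv₁top)
    set D := (C * (3 ^ (m + 1) * v₁)).toReal with hDr
    have hD0 : 0 ≤ D := ENNReal.toReal_nonneg
    refine ⟨(1 / (2 * (D + 1))) ^ (1 / p), by positivity, ?_, ?_⟩
    · apply Real.rpow_le_one (by positivity) _ (by positivity)
      rw [div_le_one (by positivity)]; linarith
    · rw [ENNReal.ofReal_rpow_of_nonneg (by positivity) hp0.le, ← Real.rpow_mul (by positivity),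
        one_div_mul_cancel hp0.ne', Real.rpow_one]
      calc C * (ENNReal.ofReal (1 / (2 * (D + 1))) * (3 ^ (m + 1) * v₁))
          = ENNReal.ofReal (1 / (2 * (D + 1))) * (C * (3 ^ (m + 1) * v₁)) := by ring
        _ = ENNReal.ofReal (1 / (2 * (D + 1))) * ENNReal.ofReal D := by
            rw [hDr, ENNReal.ofReal_toReal hD]
        _ = ENNReal.ofReal (1 / (2 * (D + 1)) * D) := by
            rw [ENNReal.ofReal_mul (by positivity)]
        _ ≤ ENNReal.ofReal (1 / 2) := by
            apply ENNReal.ofReal_le_ofReal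
            rw [div_mul_eq_mul_div, div_le_div_iff₀ (by positivity) (by positivity)]
            linarith
        _ = 1 / 2 := by
            rw [ENNReal.ofReal_div_of_pos (by norm_num)]; simp
  set M := Metric.diam (f '' K') with hM
  have hfK' : Bornology.IsBounded (f '' K') :=
    (hK'c.image_of_continuousOn (hf.mono hΩ)).isBounded
  have hM0 : 0 ≤ M := Metric.diam_nonneg
  refine ⟨η, hη0, hη1, v₁ * (12 ^ (m + 1)) * (2 * C), ?_, 12 * M / ρ + 1, ?_⟩
  · exact ENNReal.mul_ne_top (ENNReal.mul_ne_top hv₁top (by simp))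
      (ENNReal.mul_ne_top (by simp) hCtop)
  intro t ht
  have ht0 : 0 < t := by
    have : 0 ≤ 12 * M / ρ := by positivity
    linarith
  choose! rad hrad1 hrad2 hrad3 hrad4 using fun x (hx : x ∈ steep f x₀ ρ t) =>
    exists_stopping f x₀ ρ t x hx
  set A := steep f x₀ ρ t with hA
  have hAball : ∀ x ∈ A, x ∈ closedBall x₀ ρ := fun x hx => hx.1
  -- small radii
  have hsmall : ∀ x ∈ A, 12 * rad x ≤ ρ := by
    intro x hx
    have h1 := hrad3 x hx
    have h2 : Metric.diam (f '' closedBall x (rad x)) ≤ M := by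
      apply Metric.diam_mono _ hfK'
      apply image_mono
      apply closedBall_subset_closedBall'
      have h3 : dist x x₀ ≤ ρ := hAball x hx
      have h4 := hrad2 x hx
      linarith
    have h3 : t * rad x < M := lt_of_lt_of_le h1 h2
    have h4 : 12 * M / ρ < t := by linarith
    rw [div_lt_iff₀ hρ] at h4
    by_contra hcon
    push Not at hcon
    have h5 : t * ρ < t * (12 * rad x) := by gcongr
    nlinarith
  have hsub3 : ∀ x ∈ A, closedBall x (3 * rad x) ⊆ K' := by
    intro x hx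
    apply closedBall_subset_closedBall'
    have h3 : dist x x₀ ≤ ρ := hAball x hx
    have h4 := hrad2 x hx
    linarith
  have hsub12 : ∀ x ∈ A, closedBall x (12 * rad x) ⊆ K' := by
    intro x hx
    apply closedBall_subset_closedBall'
    have h3 : dist x x₀ ≤ ρ := hAball x hx
    have h4 := hsmall x hx
    linarith
  obtain ⟨u, huA, hdisj, hcov⟩ := Vitali.exists_disjoint_subfamily_covering_enlargement_closedBall
    A (fun x => x) (fun x => 3 * rad x) (3 * ρ) (fun x hx => by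
      have := hrad2 x hx
      linarith) 4 (by norm_num)
  have hucount : u.Countable := by
    apply hdisj.countable_of_nonempty_interior
    intro x hx
    refine ⟨x, ?_⟩
    rw [mem_interior_iff_mem_nhds]
    apply closedBall_mem_nhds
    have := hrad1 x (huA hx)
    positivity
  set H : EuclideanSpace ℝ (Fin (m + 1)) → ℝ≥0∞ := fun z => if η * t < hs g z then
          ENNReal.ofReal (hs g z) ^ p else 0 with hH
  -- energy bound in each ball
  have henergy : ∀ b ∈ A, ENNReal.ofReal t ^ p * ENNReal.ofReal (rad b) ^ (m + 1) ≤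
      (2 * C) * ∫⁻ z in closedBall b (3 * rad b), H z := by
    intro b hb
    have hrb := hrad1 b hb
    have h1 := hC Ω f hf hmono g hg hw b (rad b) t hrb ht0.le
      ((hsub3 b hb).trans hΩ) (hrad3 b hb)
    have h2 : ∫⁻ z in closedBall b (3 * rad b), ENNReal.ofReal (hs g z) ^ p ≤
        ENNReal.ofReal (η * t) ^ p * (ENNReal.ofReal (3 * rad b) ^ (m + 1) * v₁) +
          ∫⁻ z in closedBall b (3 * rad b), H z := by
      calc ∫⁻ z in closedBall b (3 * rad b), ENNReal.ofReal (hs g z) ^ p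
          ≤ ∫⁻ z in closedBall b (3 * rad b), (ENNReal.ofReal (η * t) ^ p + H z) := by
            refine lintegral_mono fun z => ?_
            simp only [hH]
            split_ifs with h
            · exact le_add_self
            · rw [add_zero]
              push Not at h
              gcongr
        _ = ENNReal.ofReal (η * t) ^ p * volume (closedBall b (3 * rad b)) +
          ∫⁻ z in closedBall b (3 * rad b), H z := by
            rw [lintegral_add_left measurable_const, lintegral_const,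
              Measure.restrict_apply_univ]
        _ = _ := by
            rw [Measure.addHaar_closedBall' volume b (by positivity : 0 ≤ 3 * rad b),
              finrank_euclideanSpace_fin, ENNReal.ofReal_pow (by positivity)]
    set X := ENNReal.ofReal t ^ p * ENNReal.ofReal (rad b) ^ (m + 1) with hX
    have hXtop : X ≠ ∞ := ENNReal.mul_ne_top
      (ENNReal.rpow_ne_top_of_nonneg hp0.le ENNReal.ofReal_ne_top)
      (ENNReal.pow_ne_top ENNReal.ofReal_ne_top)
    have h3 : C * (ENNReal.ofReal (η * t) ^ p * (ENNReal.ofReal (3 * rad b) ^ (m + 1) * v₁)) ≤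
        X / 2 := by
      rw [ENNReal.ofReal_mul hη0.le, ENNReal.ofReal_mul (by norm_num : (0 : ℝ) ≤ 3),
        ENNReal.mul_rpow_of_nonneg _ _ hp0.le, mul_pow]
      have e3 : ENNReal.ofReal (3 : ℝ) = 3 := by norm_num
      rw [e3]
      calc C * (ENNReal.ofReal η ^ p * ENNReal.ofReal t ^ p *
            (3 ^ (m + 1) * ENNReal.ofReal (rad b) ^ (m + 1) * v₁))
          = (C * (ENNReal.ofReal η ^ p * (3 ^ (m + 1) * v₁))) * X := by rw [hX]; ring
        _ ≤ (1 / 2) * X := by gcongr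
        _ = X / 2 := by rw [one_div, ENNReal.div_eq_inv_mul]
    have h4 : X ≤ X / 2 + C * ∫⁻ z in closedBall b (3 * rad b), H z := by
      calc X ≤ C * ∫⁻ z in closedBall b (3 * rad b), ENNReal.ofReal (hs g z) ^ p := h1
        _ ≤ C * (ENNReal.ofReal (η * t) ^ p * (ENNReal.ofReal (3 * rad b) ^ (m + 1) * v₁) +
          ∫⁻ z in closedBall b (3 * rad b), H z) := by gcongr
        _ ≤ _ := by rw [mul_add]; gcongr
    have h5 : X / 2 ≤ C * ∫⁻ z in closedBall b (3 * rad b), H z := by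
      have h6 : X / 2 + X / 2 ≤ X / 2 + C * ∫⁻ z in closedBall b (3 * rad b), H z := by
        rw [ENNReal.add_halves]; exact h4
      exact (ENNReal.add_le_add_iff_left
        (ENNReal.div_ne_top hXtop (by norm_num))).1 h6
    calc X = 2 * (X / 2) := by rw [ENNReal.mul_div_cancel (by norm_num) (by norm_num)]
      _ ≤ 2 * (C * ∫⁻ z in closedBall b (3 * rad b), H z) := by gcongr
      _ = _ := by ring
  -- cover the image
  have himg : f '' A ⊆ ⋃ b ∈ u, f '' closedBall b (12 * rad b) := by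
    rintro _ ⟨x, hx, rfl⟩
    obtain ⟨b, hbu, hb⟩ := hcov x hx
    have h1 : x ∈ closedBall x (3 * rad x) := mem_closedBall_self (by
      have := hrad1 x hx
      positivity)
    have h2 := hb h1
    rw [mem_iUnion₂]
    refine ⟨b, hbu, x, ?_, rfl⟩
    have h3 : 4 * (3 * rad b) = 12 * rad b := by ring
    rwa [h3] at h2
  have hvol : ∀ b ∈ u, volume (f '' closedBall b (12 * rad b)) ≤
      v₁ * 12 ^ (m + 1) * ENNReal.ofReal t ^ (1 / 2 : ℝ) *
        (ENNReal.ofReal t ^ p * ENNReal.ofReal (rad b) ^ (m + 1)) := by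
    intro b hbu
    have hbA := huA hbu
    have hrb := hrad1 b hbA
    have h1 : Metric.diam (f '' closedBall b (12 * rad b)) ≤ t * (12 * rad b) :=
      hrad4 b hbA _ (by linarith) (hsmall b hbA)
    have h2 := volume_le_diam (m + 1) (f '' closedBall b (12 * rad b))
      (hfK'.subset (image_mono (hsub12 b hbA)))
      ⟨f b, b, mem_closedBall_self (by positivity), rfl⟩ (t * (12 * rad b)) (by positivity) h1
    refine h2.trans (le_of_eq ?_)
    rw [ENNReal.ofReal_mul ht0.le, ENNReal.ofReal_mul (by norm_num : (0 : ℝ) ≤ 12), mul_pow, mul_pow]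
    have e12 : ENNReal.ofReal (12 : ℝ) = 12 := by norm_num
    have et : ENNReal.ofReal t ^ (m + 1) = ENNReal.ofReal t ^ (1 / 2 : ℝ) * ENNReal.ofReal t ^ p := by
      rw [← ENNReal.rpow_add_of_nonneg _ _ (by norm_num) hp0.le, ← ENNReal.rpow_natCast]
      congr 1
      rw [hp]; push_cast; ring
    rw [e12, et]
    ring
  calc volume (f '' A) ≤ volume (⋃ b ∈ u, f '' closedBall b (12 * rad b)) := measure_mono himg
    _ ≤ ∑' b : u, volume (f '' closedBall (b : EuclideanSpace ℝ (Fin (m + 1))) (12 * rad b)) :=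
        measure_biUnion_le _ hucount _
    _ ≤ ∑' b : u, (v₁ * 12 ^ (m + 1) * ENNReal.ofReal t ^ (1 / 2 : ℝ) *
        ((2 * C) * ∫⁻ z in closedBall (b : EuclideanSpace ℝ (Fin (m + 1))) (3 * rad b), H z)) := by
        refine ENNReal.tsum_le_tsum fun b => ?_
        exact (hvol b b.2).trans (mul_le_mul_right (henergy b (huA b.2)) _)
    _ = v₁ * 12 ^ (m + 1) * ENNReal.ofReal t ^ (1 / 2 : ℝ) * ((2 * C) *
        ∑' b : u, ∫⁻ z in closedBall (b : EuclideanSpace ℝ (Fin (m + 1))) (3 * rad b), H z) := by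
        rw [ENNReal.tsum_mul_left, ENNReal.tsum_mul_left]
    _ = v₁ * 12 ^ (m + 1) * ENNReal.ofReal t ^ (1 / 2 : ℝ) * ((2 * C) *
        ∫⁻ z in ⋃ b ∈ u, closedBall b (3 * rad b), H z) := by
        rw [lintegral_biUnion hucount (fun b _ => measurableSet_closedBall) hdisj]
    _ ≤ v₁ * 12 ^ (m + 1) * ENNReal.ofReal t ^ (1 / 2 : ℝ) * ((2 * C) *
        ∫⁻ z in K', H z) := by
        gcongr
        exact iUnion₂_subset fun b hb => hsub3 b (huA hb)
    _ = _ := by ring

end Pool.Agent.Work.MP_c03b87_an
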