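import Mathlib
import Pool.Agent.Work.MP_c03b87_an.Cover

set_option autoImplicit false

open MeasureTheory Set Metric
open scoped ENNReal NNReal Topology Convolution

namespace Pool.Agent.Work.MP_c03b87_an

theorem lipschitz_image_null (n : ℕ) (f : EuclideanSpace ℝ (Fin n) → EuclideanSpace ℝ (Fin n))
    (S : Set (EuclideanSpace ℝ (Fin n))) (K : ℝ≥0) (hL : LipschitzOnWith K f S)
    (hS : volume S = 0) : volume (f '' S) = 0 := by
  haveI := isAddHaarMeasure_hausdorffMeasure (E := EuclideanSpace ℝ (Fin n))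
  have h1 : (Measure.hausdorffMeasure (Module.finrank ℝ (EuclideanSpace ℝ (Fin n))) :
      Measure (EuclideanSpace ℝ (Fin n))) S = 0 :=
    Measure.absolutelyContinuous_isAddHaarMeasure _ volume hS
  have h2 := hL.hausdorffMeasure_image_le
    (d := (Module.finrank ℝ (EuclideanSpace ℝ (Fin n)) : ℝ)) (Nat.cast_nonneg _)
  rw [h1, mul_zero] at h2
  exact Measure.absolutelyContinuous_isAddHaarMeasure volume _ (le_antisymm h2 zero_le)

theorem local_null (m : ℕ) (hm : 1 ≤ m) (Ω : Set (EuclideanSpace ℝ (Fin (m + 1))))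
      (f : EuclideanSpace ℝ (Fin (m + 1)) → EuclideanSpace ℝ (Fin (m + 1))) (hf : ContinuousOn f Ω)
      (hmono : ∀ (x : EuclideanSpace ℝ (Fin (m + 1))) (r : ℝ), 0 < r → Metric.closedBall x r ⊆ Ω →
        Metric.diam (f '' Metric.closedBall x r) ≤ Metric.diam (f '' Metric.sphere x r))
      (g : Fin (m + 1) → Fin (m + 1) → EuclideanSpace ℝ (Fin (m + 1)) → ℝ)
      (hg : ∀ i j, LocallyIntegrableOn (g i j) Ω volume)
      (hw : ∀ (i j : Fin (m + 1)) (φ : EuclideanSpace ℝ (Fin (m + 1)) → ℝ),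
        ContDiff ℝ ((⊤ : ℕ∞) : WithTop ℕ∞) φ → HasCompactSupport φ → tsupport φ ⊆ Ω →
        ∫ x, EuclideanSpace.proj i (f x) * fderiv ℝ φ x (EuclideanSpace.single j (1 : ℝ))
          = - ∫ x, g i j x * φ x)
      (hfin : LocallyIntegrableOn
        (fun x => (Real.sqrt (∑ i, ∑ j, g i j x ^ 2)) ^ (m + 1) /
        Real.log (Real.exp 1 + Real.sqrt (∑ i, ∑ j, g i j x ^ 2))) Ω volume)
      (E : Set (EuclideanSpace ℝ (Fin (m + 1)))) (hE : volume E = 0)
      (x₀ : EuclideanSpace ℝ (Fin (m + 1))) (ρ : ℝ) (hρ : 0 < ρ) (hΩ : closedBall x₀ (4 * ρ) ⊆ Ω) :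
    volume (f '' (E ∩ closedBall x₀ (ρ / 2))) = 0 := by
  have hK'c : IsCompact (closedBall x₀ (4 * ρ)) := isCompact_closedBall _ _
  obtain ⟨η, hη0, hη1, C, hCtop, t₀, hC⟩ := cover_bound m hm Ω f hf hmono g hg hw x₀ ρ hρ hΩ
  set Sinf : Set (EuclideanSpace ℝ (Fin (m + 1))) := ⋂ k : ℕ, steep f x₀ ρ (4 ^ (k + 1)) with hSinf
  -- the steep part
  have h1 : volume (f '' Sinf) = 0 := by
    obtain ⟨k₀, hk₀⟩ : ∃ k₀ : ℕ, t₀ ≤ 4 ^ k₀ := by
      obtain ⟨k, hk⟩ := pow_unbounded_of_one_lt t₀ (by norm_num : (1 : ℝ) < 4)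
      exact ⟨k, hk.le⟩
    have hgm : ∀ i j, AEMeasurable (g i j) (volume.restrict (closedBall x₀ (4 * ρ))) := fun i j =>
      ((hg i j).integrableOn_compact_subset hΩ hK'c).aestronglyMeasurable.aemeasurable
    have hhs : AEMeasurable (hs g) (volume.restrict (closedBall x₀ (4 * ρ))) := by
      unfold hs
      apply AEMeasurable.sqrt
      refine Finset.aemeasurable_fun_sum _ fun i _ => ?_
      refine Finset.aemeasurable_fun_sum _ fun j _ => ?_
      exact (hgm i j).pow_const 2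
    apply eq_zero_of_forall_weight (volume.restrict (closedBall x₀ (4 * ρ))) m η hη0 hη1 (hs g)
      (fun a => Real.sqrt_nonneg _) hhs _ (volume (f '' Sinf)) C hCtop k₀
    · intro k hk
      have hsub : Sinf ⊆ steep f x₀ ρ (4 ^ (k + 1)) := iInter_subset _ k
      have h2 : t₀ ≤ 4 ^ (k + 1) :=
        hk₀.trans (pow_le_pow_right₀ (by norm_num) (by omega))
      have h3 := hC (4 ^ (k + 1)) h2
      have h4 : ENNReal.ofReal (4 ^ (k + 1)) ^ (1 / 2 : ℝ) = (2 : ℝ≥0∞) ^ (k + 1) := by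
        rw [ENNReal.ofReal_rpow_of_nonneg (by positivity) (by norm_num)]
        have h5 : ((4 : ℝ) ^ (k + 1)) ^ (1 / 2 : ℝ) = 2 ^ (k + 1) := by
          rw [← Real.sqrt_eq_rpow]
          have : (4 : ℝ) ^ (k + 1) = (2 ^ (k + 1)) ^ 2 := by
            rw [← pow_mul, mul_comm, pow_mul]; norm_num
          rw [this, Real.sqrt_sq (by positivity)]
        rw [h5, ENNReal.ofReal_pow (by norm_num)]
        norm_num
      rw [h4] at h3
      exact (measure_mono (image_mono hsub)).trans h3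
    · exact (hfin.integrableOn_compact_subset hΩ hK'c).lintegral_lt_top.ne
  -- the Lipschitz part
  set L : ℕ → Set (EuclideanSpace ℝ (Fin (m + 1))) := fun k =>
    {x | x ∈ E ∩ closedBall x₀ (ρ / 2) ∧ ∀ r, 0 < r → r ≤ ρ →
      Metric.diam (f '' closedBall x r) ≤ 4 ^ (k + 1) * r} with hL
  have h2 : ∀ k, volume (f '' L k) = 0 := by
    intro k
    apply lipschitz_image_null (m + 1) f (L k) (4 ^ (k + 1))
    · apply LipschitzOnWith.of_dist_le_mul
      intro x hx y hy
      push_cast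
      rcases eq_or_ne x y with rfl | hxy
      · simp
      · have hd0 : 0 < dist x y := dist_pos.2 hxy
        have hdρ : dist x y ≤ ρ := by
          have a1 : dist x x₀ ≤ ρ / 2 := hx.1.2
          have a2 : dist y x₀ ≤ ρ / 2 := hy.1.2
          calc dist x y ≤ dist x x₀ + dist x₀ y := dist_triangle _ _ _
            _ ≤ ρ / 2 + ρ / 2 := by rw [dist_comm x₀ y]; gcongr
            _ = ρ := by ring
        refine le_trans ?_ (hx.2 (dist x y) hd0 hdρ)
        apply Metric.dist_le_diam_of_mem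
        · apply ((isCompact_closedBall x (dist x y)).image_of_continuousOn (hf.mono _)).isBounded
          refine Subset.trans ?_ hΩ
          apply closedBall_subset_closedBall'
          have a1 : dist x x₀ ≤ ρ / 2 := hx.1.2
          linarith
        · exact ⟨x, mem_closedBall_self hd0.le, rfl⟩
        · exact ⟨y, by rw [mem_closedBall, dist_comm], rfl⟩
    · exact measure_mono_null (fun x hx => hx.1.1) hE
  have hsub : f '' (E ∩ closedBall x₀ (ρ / 2)) ⊆ f '' Sinf ∪ ⋃ k, f '' L k := by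
    rintro _ ⟨x, hx, rfl⟩
    by_cases hxs : x ∈ Sinf
    · exact Or.inl ⟨x, hxs, rfl⟩
    · right
      rw [hSinf, mem_iInter] at hxs
      push Not at hxs
      obtain ⟨k, hk⟩ := hxs
      rw [mem_iUnion]
      refine ⟨k, x, ⟨hx, ?_⟩, rfl⟩
      intro r hr0 hrρ
      by_contra hcon
      push Not at hcon
      apply hk
      refine ⟨?_, r, hr0, hrρ, hcon⟩
      exact closedBall_subset_closedBall (by linarith) hx.2
  refine measure_mono_null hsub ?_
  rw [measure_union_null_iff]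
  exact ⟨h1, measure_iUnion_null h2⟩

theorem main (n : ℕ) (hn : 2 ≤ n) (Ω : Set (EuclideanSpace ℝ (Fin n))) (hΩo : IsOpen Ω)
      (f : EuclideanSpace ℝ (Fin n) → EuclideanSpace ℝ (Fin n)) (hf : ContinuousOn f Ω)
      (hmono : ∀ (x : EuclideanSpace ℝ (Fin n)) (r : ℝ), 0 < r → Metric.closedBall x r ⊆ Ω →
        Metric.diam (f '' Metric.closedBall x r) ≤ Metric.diam (f '' Metric.sphere x r))
      (g : Fin n → Fin n → EuclideanSpace ℝ (Fin n) → ℝ)
      (hg : ∀ i j, LocallyIntegrableOn (g i j) Ω volume)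
      (hw : ∀ (i j : Fin n) (φ : EuclideanSpace ℝ (Fin n) → ℝ),
        ContDiff ℝ ((⊤ : ℕ∞) : WithTop ℕ∞) φ → HasCompactSupport φ → tsupport φ ⊆ Ω →
        ∫ x, EuclideanSpace.proj i (f x) * fderiv ℝ φ x (EuclideanSpace.single j (1 : ℝ))
          = - ∫ x, g i j x * φ x)
      (hfin : LocallyIntegrableOn
        (fun x => (Real.sqrt (∑ i, ∑ j, g i j x ^ 2)) ^ n /
        Real.log (Real.exp 1 + Real.sqrt (∑ i, ∑ j, g i j x ^ 2))) Ω volume)
      (E : Set (EuclideanSpace ℝ (Fin n))) (hEΩ : E ⊆ Ω) (hE : volume E = 0) :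
    volume (f '' E) = 0 := by
  obtain ⟨m, rfl⟩ : ∃ m, n = m + 1 := ⟨n - 1, by omega⟩
  have hm : 1 ≤ m := by omega
  have h := measure_null_of_locally_null (μ := OuterMeasure.comap f (volume : Measure
    (EuclideanSpace ℝ (Fin (m + 1)))).toOuterMeasure) E ?_
  · simpa using h
  · intro x hx
    obtain ⟨ε, hε0, hε⟩ := Metric.isOpen_iff.1 hΩo x (hEΩ hx)
    refine ⟨E ∩ closedBall x (ε / 8 / 2), ?_, ?_⟩
    · exact inter_mem_nhdsWithin E (closedBall_mem_nhds x (by positivity))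
    · rw [OuterMeasure.comap_apply]
      apply local_null m hm Ω f hf hmono g hg hw hfin E hE x (ε / 8) (by positivity)
      refine Subset.trans ?_ hε
      apply closedBall_subset_ball
      linarith

end Pool.Agent.Work.MP_c03b87_an
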